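import Pool.Agent.Kneser.Lift

/-!
# The concrete profiles and the passage to the limit
-/

set_option autoImplicit false
set_option linter.unusedSectionVars false

namespace Pool.Agent.Kneser

open MeasureTheory Set Filter Topology
open scoped InnerProductSpace

section profile

/-- Smooth cutoff: equal to `1` for `u ≤ c` and to `0` for `u ≥ c + δ`. -/
noncomputable def cut (c δ u : ℝ) : ℝ := Real.smoothTransition ((c + δ - u) / δ)

theorem cut_contDiff (c δ : ℝ) : ContDiff ℝ 2 (cut c δ) := by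
  unfold cut
  have h := (Real.smoothTransition.contDiff (n := 2))
  exact h.comp (by fun_prop)

theorem cut_antitone (c : ℝ) {δ : ℝ} (hδ : 0 < δ) : Antitone (cut c δ) := by
  intro u v huv
  unfold cut
  apply Real.smoothTransition.monotone
  gcongr

theorem cut_eq_one {c δ u : ℝ} (hδ : 0 < δ) (h : u ≤ c) : cut c δ u = 1 := by
  unfold cut
  apply Real.smoothTransition.one_of_one_le
  rw [le_div_iff₀ hδ]
  linarith

theorem cut_eq_zero {c δ u : ℝ} (hδ : 0 < δ) (h : c + δ ≤ u) : cut c δ u = 0 := by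
  unfold cut
  apply Real.smoothTransition.zero_of_nonpos
  exact div_nonpos_of_nonpos_of_nonneg (by linarith) hδ.le

theorem cut_nonneg (c δ u : ℝ) : 0 ≤ cut c δ u := Real.smoothTransition.nonneg _

theorem cut_le_one (c δ u : ℝ) : cut c δ u ≤ 1 := Real.smoothTransition.le_one _

/-- The smooth concave function, an approximation of `2 * min s m`. -/
noncomputable def conc (m δ s : ℝ) : ℝ := s - √((s - m) ^ 2 + δ ^ 2) + √(m ^ 2 + δ ^ 2)

theorem conc_zero (m δ : ℝ) : conc m δ 0 = 0 := by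
  simp [conc]

/-- The derivative of `conc`. -/
noncomputable def concD (m δ s : ℝ) : ℝ := 1 - (s - m) / √((s - m) ^ 2 + δ ^ 2)

/-- The second derivative of `conc`. -/
noncomputable def concDD (m δ s : ℝ) : ℝ :=
  - (δ ^ 2 / (((s - m) ^ 2 + δ ^ 2) * √((s - m) ^ 2 + δ ^ 2)))

theorem hasDerivAt_root (m : ℝ) {δ : ℝ} (hδ : 0 < δ) (s : ℝ) :
    HasDerivAt (fun s => √((s - m) ^ 2 + δ ^ 2)) ((s - m) / √((s - m) ^ 2 + δ ^ 2)) s := by
  have h1 : HasDerivAt (fun s : ℝ => (s - m) ^ 2 + δ ^ 2) (2 * (s - m)) s := by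
    have := (((hasDerivAt_id s).sub_const m).pow 2).add_const (δ ^ 2)
    simpa using this
  have hne : (s - m) ^ 2 + δ ^ 2 ≠ 0 := by positivity
  have h2 := h1.sqrt hne
  refine h2.congr_deriv ?_
  field_simp

theorem hasDerivAt_conc (m : ℝ) {δ : ℝ} (hδ : 0 < δ) (s : ℝ) :
    HasDerivAt (conc m δ) (concD m δ s) s := by
  unfold conc concD
  exact ((hasDerivAt_id s).sub (hasDerivAt_root m hδ s)).add_const _

theorem hasDerivAt_concD (m : ℝ) {δ : ℝ} (hδ : 0 < δ) (s : ℝ) :
    HasDerivAt (concD m δ) (concDD m δ s) s := by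
  unfold concD concDD
  have hpos : 0 < (s - m) ^ 2 + δ ^ 2 := by positivity
  have hr : √((s - m) ^ 2 + δ ^ 2) ≠ 0 := (Real.sqrt_pos.mpr hpos).ne'
  have h1 : HasDerivAt (fun s : ℝ => s - m) 1 s := by
    simpa using (hasDerivAt_id s).sub_const m
  have h2 := (h1.div (hasDerivAt_root m hδ s) hr).const_sub 1
  refine h2.congr_deriv ?_
  have hsq : √((s - m) ^ 2 + δ ^ 2) ^ 2 = (s - m) ^ 2 + δ ^ 2 := Real.sq_sqrt hpos.le
  set q := √((s - m) ^ 2 + δ ^ 2) with hq
  rw [hsq, ← hsq]
  have hd : δ ^ 2 = q ^ 2 - (s - m) ^ 2 := by rw [hsq]; ring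
  rw [hd]
  field_simp

theorem continuous_concDD (m : ℝ) {δ : ℝ} (hδ : 0 < δ) : Continuous (concDD m δ) := by
  unfold concDD
  have h : ∀ s : ℝ, ((s - m) ^ 2 + δ ^ 2) * √((s - m) ^ 2 + δ ^ 2) ≠ 0 := by
    intro s
    have hpos : 0 < (s - m) ^ 2 + δ ^ 2 := by positivity
    have := Real.sqrt_pos.mpr hpos
    positivity
  exact (continuous_const.div (by fun_prop) h).neg

variable {ι : Type*}

/-- The concrete profile. -/
noncomputable def prof (c : ι → ℝ) (m δ R : ℝ) (hδ : 0 < δ) (hR : 0 ≤ R)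
    (hc : ∀ i, c i + δ ≤ R ^ 2) : Profile ι where
  phi := conc m δ
  k := concD m δ
  k' := concDD m δ
  a := fun i => cut (c i) δ
  b := fun i => deriv (cut (c i) δ)
  b' := fun i => deriv (deriv (cut (c i) δ))
  R := R
  hphi := hasDerivAt_conc m hδ
  hphi0 := conc_zero m δ
  hk := hasDerivAt_concD m hδ
  hk'c := continuous_concDD m hδ
  hk' := fun s => by
    unfold concDD
    have hpos : 0 < (s - m) ^ 2 + δ ^ 2 := by positivity
    have := Real.sqrt_pos.mpr hpos
    rw [neg_nonpos]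
    positivity
  ha := fun i u => by
    have h : Differentiable ℝ (cut (c i) δ) := (cut_contDiff (c i) δ).differentiable (by norm_num)
    exact (h u).hasDerivAt
  hb := fun i u => by
    have h1 : ContDiff ℝ 1 (deriv (cut (c i) δ)) :=
      ((cut_contDiff (c i) δ).of_le (by norm_num : (1 + 1 : WithTop ℕ∞) ≤ 2)).deriv'
    exact (h1.differentiable (by norm_num) u).hasDerivAt
  hb'c := fun i => by
    have h1 : ContDiff ℝ 1 (deriv (cut (c i) δ)) :=
      ((cut_contDiff (c i) δ).of_le (by norm_num : (1 + 1 : WithTop ℕ∞) ≤ 2)).deriv'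
    exact h1.continuous_deriv (by norm_num)
  hbneg := fun i u => (cut_antitone (c i) hδ).deriv_nonpos
  hsuppa := fun i u hu => cut_eq_zero hδ ((hc i).trans hu.le)
  hsupp := fun i u hu => by
    have : cut (c i) δ =ᶠ[𝓝 u] fun _ => 0 := by
      filter_upwards [Ioi_mem_nhds hu] with v hv
      exact cut_eq_zero hδ ((hc i).trans (le_of_lt hv))
    rw [this.deriv_eq]; simp
  hsupp' := fun i u hu => by
    have : deriv (cut (c i) δ) =ᶠ[𝓝 u] fun _ => 0 := by
      filter_upwards [Ioi_mem_nhds hu] with v hv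
      have : cut (c i) δ =ᶠ[𝓝 v] fun _ => 0 := by
        filter_upwards [Ioi_mem_nhds hv] with w hw
        exact cut_eq_zero hδ ((hc i).trans (le_of_lt hw))
      rw [this.deriv_eq]; simp
    rw [this.deriv_eq]; simp
  hR := hR

end profile

section limit

variable {E : Type*} [NormedAddCommGroup E] [InnerProductSpace ℝ E] [FiniteDimensional ℝ E]
  [MeasurableSpace E] [BorelSpace E]
variable {ι : Type*} [Fintype ι]

/-- The sequence of smoothing parameters. -/
noncomputable def dl (n : ℕ) : ℝ := 1 / ((n : ℝ) + 1)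

theorem dl_pos (n : ℕ) : 0 < dl n := by unfold dl; positivity

theorem dl_le_one (n : ℕ) : dl n ≤ 1 := by
  unfold dl
  rw [div_le_one (by positivity)]
  linarith [(Nat.cast_nonneg n : (0 : ℝ) ≤ n)]

theorem dl_tendsto : Tendsto dl atTop (𝓝 0) := tendsto_one_div_add_atTop_nhds_zero_nat

/-- Number of balls containing `x`. -/
noncomputable def cnt (c : ι → ℝ) (p : ι → E) (x : E) : ℝ :=
  ∑ l, if ‖x - p l‖ ^ 2 ≤ c l then (1 : ℝ) else 0

theorem conc_zero_right (m s : ℝ) : conc m 0 s = s - |s - m| + |m| := by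
  simp [conc, Real.sqrt_sq_eq_abs]

theorem tendsto_pointwise (c : ι → ℝ) (p : ι → E) (m : ℝ) (x : E) :
    Tendsto (fun n => conc m (dl n) (∑ l, cut (c l) (dl n) (‖x - p l‖ ^ 2))) atTop
      (𝓝 (cnt c p x - |cnt c p x - m| + |m|)) := by
  have h1 : Tendsto (fun n => conc m (dl n) (cnt c p x)) atTop
      (𝓝 (cnt c p x - |cnt c p x - m| + |m|)) := by
    rw [← conc_zero_right]
    have hc : Continuous (fun δ => conc m δ (cnt c p x)) := by
      unfold conc; fun_prop
    exact (hc.tendsto 0).comp dl_tendsto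
  refine h1.congr' ?_
  have h2 : ∀ l, ∀ᶠ n in atTop, cut (c l) (dl n) (‖x - p l‖ ^ 2) =
      if ‖x - p l‖ ^ 2 ≤ c l then (1 : ℝ) else 0 := by
    intro l
    by_cases h : ‖x - p l‖ ^ 2 ≤ c l
    · refine Eventually.of_forall fun n => ?_
      rw [if_pos h, cut_eq_one (dl_pos n) h]
    · have h3 : 0 < ‖x - p l‖ ^ 2 - c l := by
        have := not_le.mp h; linarith
      filter_upwards [dl_tendsto.eventually (gt_mem_nhds h3)] with n hn
      rw [if_neg h, cut_eq_zero (dl_pos n) (by linarith)]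
  filter_upwards [eventually_all.mpr h2] with n hn
  rw [cnt]
  simp only [hn]

theorem tendsto_smoothed (c : ι → ℝ) (p : ι → E) (m : ℝ) :
    Tendsto (fun n => ∫ x, conc m (dl n) (∑ l, cut (c l) (dl n) (‖x - p l‖ ^ 2))) atTop
      (𝓝 (∫ x, (cnt c p x - |cnt c p x - m| + |m|))) := by
  obtain ⟨R, hR⟩ : ∃ R : ℝ, ∀ x : E, R < ‖x‖ → ∀ l, c l + 1 < ‖x - p l‖ ^ 2 := by
    refine ⟨∑ l, (‖p l‖ + |c l| + 1) + 1, fun x hx l => ?_⟩
    have h1 : ‖p l‖ + |c l| + 1 ≤ ∑ l, (‖p l‖ + |c l| + 1) :=
      Finset.single_le_sum (f := fun l => ‖p l‖ + |c l| + 1) (fun i _ => by positivity)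
        (Finset.mem_univ l)
    have h2 : ‖x‖ ≤ ‖x - p l‖ + ‖p l‖ := by simpa using norm_add_le (x - p l) (p l)
    have h3 : |c l| + 1 < ‖x - p l‖ := by linarith
    have h4 : 0 ≤ |c l| := abs_nonneg _
    have h5 : c l ≤ |c l| := le_abs_self _
    nlinarith
  have hout : ∀ n, ∀ x : E, R < ‖x‖ → (∑ l, cut (c l) (dl n) (‖x - p l‖ ^ 2)) = 0 := by
    intro n x hx
    refine Finset.sum_eq_zero fun l _ => cut_eq_zero (dl_pos n) ?_
    have := hR x hx l
    linarith [dl_le_one n]
  have hmeas : ∀ n, Continuous (fun x : E =>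
      conc m (dl n) (∑ l, cut (c l) (dl n) (‖x - p l‖ ^ 2))) := by
    intro n
    have h1 : ∀ l, Continuous (cut (c l) (dl n)) := fun l => (cut_contDiff _ _).continuous
    unfold conc
    fun_prop
  refine tendsto_integral_of_dominated_convergence
    (bound := fun x => (Metric.closedBall (0 : E) R).indicator
      (fun _ => (Fintype.card ι : ℝ) + (|m| + 1) + ((Fintype.card ι : ℝ) + |m| + 1)) x)
    (fun n => (hmeas n).aestronglyMeasurable) ?_ ?_ ?_
  · rw [integrable_indicator_iff Metric.isClosed_closedBall.measurableSet]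
    exact integrableOn_const (isCompact_closedBall (0 : E) R).measure_lt_top.ne
  · intro n
    refine Eventually.of_forall fun x => ?_
    by_cases hx : x ∈ Metric.closedBall (0 : E) R
    · rw [indicator_of_mem hx]
      set s := ∑ l, cut (c l) (dl n) (‖x - p l‖ ^ 2) with hs
      have hs0 : 0 ≤ s := Finset.sum_nonneg fun l _ => cut_nonneg _ _ _
      have hs1 : s ≤ Fintype.card ι := by
        calc s ≤ ∑ _l : ι, (1 : ℝ) := Finset.sum_le_sum fun l _ => cut_le_one _ _ _
          _ = Fintype.card ι := by simp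
      have hsqrt : ∀ y : ℝ, √(y ^ 2 + dl n ^ 2) ≤ |y| + 1 := by
        intro y
        rw [Real.sqrt_le_left (by positivity)]
        have h1 := dl_pos n
        have h2 := dl_le_one n
        have h3 := abs_nonneg y
        have h4 := sq_abs y
        nlinarith
      have h1 := hsqrt (s - m)
      have h2 := hsqrt m
      have h3 : |s - m| ≤ s + |m| := by
        have := abs_sub s m
        rw [abs_of_nonneg hs0] at this
        exact this
      have h4 := Real.sqrt_nonneg ((s - m) ^ 2 + dl n ^ 2)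
      have h5 := Real.sqrt_nonneg (m ^ 2 + dl n ^ 2)
      rw [Real.norm_eq_abs, conc, abs_le]
      constructor <;> linarith [abs_nonneg m]
    · rw [indicator_of_notMem hx]
      have : R < ‖x‖ := by simpa using hx
      rw [hout n x this, conc_zero]; simp
  · exact Eventually.of_forall fun x => tendsto_pointwise c p m x

/-- If `J` is larger on the lift of `p` than on the lift of `q` for all profiles, then the
corresponding inequality holds for the truncated counting functions. -/
theorem truncated_le (c : ι → ℝ) (hc : ∀ i, 0 ≤ c i) (p q : ι → E) (m : ℝ)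
    (H : ∀ D : Profile ι, D.J (fun i => WithLp.toLp 2 (q i, (0 : Pl))) ≤
      D.J (fun i => WithLp.toLp 2 (p i, (0 : Pl)))) :
    ∫ x, (cnt c q x - |cnt c q x - m| + |m|) ≤ ∫ x, (cnt c p x - |cnt c p x - m| + |m|) := by
  refine le_of_tendsto_of_tendsto' (tendsto_smoothed c q m) (tendsto_smoothed c p m) fun n => ?_
  have hR : ∀ i, c i + dl n ≤ (1 + ∑ l, c l) ^ 2 := by
    intro i
    have h1 : c i ≤ ∑ l, c l := Finset.single_le_sum (fun l _ => hc l) (Finset.mem_univ i)
    have h2 := dl_le_one n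
    have h3 := hc i
    nlinarith
  have hR0 : 0 ≤ 1 + ∑ l, c l := by
    have := Finset.sum_nonneg fun l (_ : l ∈ Finset.univ) => hc l
    linarith
  have h := H (prof c m (dl n) (1 + ∑ l, c l) (dl_pos n) hR0 hR)
  rw [Profile.J_lift, Profile.J_lift] at h
  exact le_of_mul_le_mul_left h Real.pi_pos

end limit

end Pool.Agent.Kneser
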