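import Pool.Agent.Kneser.Main

/-!
# Congruent configurations

`J` only depends on the distance matrix of the configuration and on the dimension of the
ambient space.
-/

set_option autoImplicit false
set_option linter.unusedSectionVars false

namespace Pool.Agent.Kneser

open MeasureTheory Set Filter Topology Module
open scoped InnerProductSpace

section

variable {V : Type*} [NormedAddCommGroup V] [InnerProductSpace ℝ V] [FiniteDimensional ℝ V]
  [MeasurableSpace V] [BorelSpace V]
variable {V' : Type*} [NormedAddCommGroup V'] [InnerProductSpace ℝ V'] [FiniteDimensional ℝ V']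
  [MeasurableSpace V'] [BorelSpace V']

theorem Profile.J_isometry' {ι : Type*} [Fintype ι] (D : Profile ι) (O : V ≃ₗᵢ[ℝ] V')
    (P : ι → V) : D.J (fun i => O (P i)) = D.J P := by
  unfold Profile.J
  congr 1
  refine Finset.sum_congr rfl fun i _ => ?_
  have h := O.measurePreserving.integral_comp (O.toHomeomorph.measurableEmbedding)
    (D.f i (fun i => O (P i)))
  rw [← h]
  congr 1
  ext X
  simp only [Profile.f, Profile.S, ← map_sub, O.norm_map]

theorem Profile.J_congr_aux {n : ℕ} (D : Profile (Fin (n + 1))) (x y : Fin (n + 1) → V)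
    (h : ∀ i j, dist (x i) (x j) = dist (y i) (y j)) : D.J x = D.J y := by
  have hin : ∀ i j, ⟪x i - x 0, x j - x 0⟫_ℝ = ⟪y i - y 0, y j - y 0⟫_ℝ := by
    intro i j
    have e : ∀ z : Fin (n + 1) → V, ⟪z i - z 0, z j - z 0⟫_ℝ =
        (dist (z i) (z 0) ^ 2 + dist (z j) (z 0) ^ 2 - dist (z i) (z j) ^ 2) / 2 := by
      intro z
      have h1 := @norm_sub_sq ℝ V _ _ _ (z i - z 0) (z j - z 0)
      rw [sub_sub_sub_cancel_right] at h1
      simp only [RCLike.re_to_real] at h1
      rw [dist_eq_norm, dist_eq_norm, dist_eq_norm, h1]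
      ring
    rw [e, e, h, h, h]
  let A : (Fin (n + 1) → ℝ) →ₗ[ℝ] V := Fintype.linearCombination ℝ (fun i => x i - x 0)
  let B : (Fin (n + 1) → ℝ) →ₗ[ℝ] V := Fintype.linearCombination ℝ (fun i => y i - y 0)
  have hA : ∀ c, A c = ∑ i, c i • (x i - x 0) := fun c => Fintype.linearCombination_apply ..
  have hB : ∀ c, B c = ∑ i, c i • (y i - y 0) := fun c => Fintype.linearCombination_apply ..
  have hnorm : ∀ c, ‖A c‖ = ‖B c‖ := by
    intro c
    rw [← sq_eq_sq₀ (norm_nonneg _) (norm_nonneg _), ← real_inner_self_eq_norm_sq,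
      ← real_inner_self_eq_norm_sq, hA, hB]
    simp only [sum_inner, inner_sum, real_inner_smul_left, real_inner_smul_right, hin]
  have hker : LinearMap.ker A ≤ LinearMap.ker B := by
    intro c hc
    rw [LinearMap.mem_ker] at hc ⊢
    rw [← norm_eq_zero, ← hnorm, hc, norm_zero]
  let L0 : LinearMap.range A →ₗ[ℝ] V :=
    (LinearMap.ker A).liftQ B hker ∘ₗ A.quotKerEquivRange.symm.toLinearMap
  have hL0 : ∀ c, L0 ⟨A c, LinearMap.mem_range_self A c⟩ = B c := by
    intro c
    simp only [L0, LinearMap.comp_apply, LinearEquiv.coe_coe]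
    have : A.quotKerEquivRange.symm ⟨A c, LinearMap.mem_range_self A c⟩ =
        Submodule.Quotient.mk c := by
      rw [LinearEquiv.symm_apply_eq]
      rfl
    rw [this]
    rfl
  let L : LinearMap.range A →ₗᵢ[ℝ] V :=
    { toLinearMap := L0
      norm_map' := by
        rintro ⟨v, c, rfl⟩
        rw [hL0, ← hnorm]
        rfl }
  let O : V ≃ₗᵢ[ℝ] V := L.extend.toLinearIsometryEquiv rfl
  have hO : ∀ i, O (x i - x 0) = y i - y 0 := by
    intro i
    have e1 : x i - x 0 = A (Pi.single i 1) := by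
      rw [hA]
      simp [Pi.single_apply]
    have e2 : y i - y 0 = B (Pi.single i 1) := by
      rw [hB]
      simp [Pi.single_apply]
    rw [e1, e2, ← hL0]
    exact LinearIsometry.extend_apply L ⟨A (Pi.single i 1), LinearMap.mem_range_self A _⟩
  have h1 : D.J y = D.J (fun i => O (x i - x 0)) := by
    rw [← D.J_translate (y 0) (fun i => O (x i - x 0))]
    congr 1
    funext i
    rw [hO]; abel
  rw [h1, D.J_isometry O (fun i => x i - x 0), ← D.J_translate (-x 0) x]
  congr 1
  funext i
  rw [sub_eq_add_neg]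

theorem Profile.J_congr {n : ℕ} (D : Profile (Fin n)) (hV : finrank ℝ V = finrank ℝ V')
    (x : Fin n → V) (y : Fin n → V')
    (h : ∀ i j, dist (x i) (x j) = dist (y i) (y j)) : D.J x = D.J y := by
  rcases n with _ | n
  · simp [Profile.J]
  let O : V ≃ₗᵢ[ℝ] V' := (stdOrthonormalBasis ℝ V).equiv (stdOrthonormalBasis ℝ V')
    (finCongr hV)
  rw [← D.J_isometry' O x]
  refine D.J_congr_aux _ _ fun i j => ?_
  rw [O.dist_map, h]

end

section

variable {E : Type*} [NormedAddCommGroup E] [InnerProductSpace ℝ E] [FiniteDimensional ℝ E]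
  [MeasurableSpace E] [BorelSpace E]
variable {V : Type*} [NormedAddCommGroup V] [InnerProductSpace ℝ V] [FiniteDimensional ℝ V]
  [MeasurableSpace V] [BorelSpace V]
variable {n : ℕ}

/-- Expanding paths in dimension `d + 2`, with the end points given up to congruence. -/
theorem weighted_of_path' (hV : finrank ℝ V = finrank ℝ E + 2)
    (p q : Fin n → E) (ρ τ : Fin n → ℝ)
    (hρ : ∀ i, 0 ≤ ρ i) (hτ : Antitone τ) {P W : ℝ → Fin n → V}
    (hP0 : ∀ i j, dist (P 0 i) (P 0 j) = dist (q i) (q j))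
    (hP1 : ∀ i j, dist (P 1 i) (P 1 j) = dist (p i) (p j))
    (hPc : ∀ i, ContinuousOn (fun t => P t i) (Icc 0 1))
    (hd : ∀ t ∈ Ioo (0 : ℝ) 1, ∀ i, HasDerivAt (fun s => P s i) (W t i) t)
    (hW : ∀ i, ContinuousOn (fun t => W t i) (Ioo 0 1))
    (hdist : ∀ i j, MonotoneOn (fun t => dist (P t i) (P t j)) (Icc 0 1)) :
    ∑ k : Fin n, τ k * (volume {x : E | k.val + 1 ≤ num q ρ x}).toReal ≤
      ∑ k : Fin n, τ k * (volume {x : E | k.val + 1 ≤ num p ρ x}).toReal := by
  refine weighted_of_J p q ρ hρ τ hτ fun D => ?_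
  have h := D.J_mono_of_dist hPc hd hW hdist
  have hfr : finrank ℝ V = finrank ℝ (WithLp 2 (E × Pl)) := by
    rw [(WithLp.linearEquiv 2 ℝ (E × Pl)).finrank_eq, finrank_prod, hV]
    simp
  rwa [D.J_congr hfr (P 0) (fun i => WithLp.toLp 2 (q i, (0 : Pl))) (fun i j => by
      rw [hP0, dist_lift]),
    D.J_congr hfr (P 1) (fun i => WithLp.toLp 2 (p i, (0 : Pl))) (fun i j => by
      rw [hP1, dist_lift])] at h

end

end Pool.Agent.Kneser
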