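import Mathlib

/-!
# The monotonicity formula

`J P = - ∑ i, ∫ X, k (∑ l, a l (‖X - P l‖ ^ 2)) * b i (‖X - P i‖ ^ 2)` is nondecreasing along
expanding `C^1` paths of configurations when `b l` is the derivative of `a l`, `b l ≤ 0` has
bounded support and `k` is nonincreasing.
-/

set_option autoImplicit false
set_option linter.unusedSectionVars false

namespace Pool.Agent.Kneser

open MeasureTheory Set Filter Topology

section general

variable {V : Type*} [NormedAddCommGroup V] [NormedSpace ℝ V] [FiniteDimensional ℝ V]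
  [MeasurableSpace V] [BorelSpace V] (μ : Measure V) [μ.IsAddHaarMeasure]

/-- The integral of a directional derivative of a compactly supported function vanishes. -/
theorem integral_lineDeriv_eq_zero {g g' : V → ℝ} {v : V} (hg : Continuous g)
    (hgc : HasCompactSupport g) (hg' : Continuous g') (hg'c : HasCompactSupport g')
    (h : ∀ x, HasLineDerivAt ℝ g (g' x) x v) : ∫ x, g' x ∂μ = 0 := by
  have key := integral_bilinear_hasLineDerivAt_right_eq_neg_left_of_integrable (μ := μ)
    (f := fun _ : V => (1 : ℝ)) (f' := fun _ : V => (0 : ℝ)) (g := g) (g' := g') (v := v)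
    (B := ContinuousLinearMap.mul ℝ ℝ) (by simp)
    (by simpa using hg'.integrable_of_hasCompactSupport hg'c)
    (by simpa using hg.integrable_of_hasCompactSupport hgc)
    (fun x _ => by
      have := (hasDerivAt_const (0 : ℝ) (1 : ℝ))
      exact this)
    (fun x _ => h x)
  simpa using key

/-- Continuity of an integral depending on a parameter. -/
theorem continuousOn_integral_compact {f : ℝ → V → ℝ} {a b R : ℝ}
    (hf : ContinuousOn (Function.uncurry f) (Icc a b ×ˢ univ))
    (hs : ∀ s ∈ Icc a b, ∀ x, R < ‖x‖ → f s x = 0) :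
    ContinuousOn (fun s => ∫ x, f s x ∂μ) (Icc a b) := by
  obtain ⟨C, hC⟩ := (isCompact_Icc.prod (isCompact_closedBall (0 : V) R)).exists_bound_of_continuousOn
    (hf.mono (prod_mono_right (subset_univ _)))
  have hsec : ∀ s ∈ Icc a b, Continuous (f s) := by
    intro s hs'
    have : ContinuousOn (fun x => Function.uncurry f (s, x)) univ :=
      hf.comp (by fun_prop) (fun x _ => ⟨hs', mem_univ _⟩)
    simpa [continuousOn_univ] using this
  refine continuousOn_of_dominated (bound := fun x => (Metric.closedBall (0 : V) R).indicator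
    (fun _ => |C|) x) ?_ ?_ ?_ ?_
  · intro s hs'
    exact (hsec s hs').aestronglyMeasurable
  · intro s hs'
    refine Eventually.of_forall fun x => ?_
    by_cases hx : x ∈ Metric.closedBall (0 : V) R
    · rw [indicator_of_mem hx]
      exact (hC (s, x) ⟨hs', hx⟩).trans (le_abs_self C)
    · rw [indicator_of_notMem hx]
      have : R < ‖x‖ := by simpa using hx
      simp [hs s hs' x this]
  · rw [integrable_indicator_iff Metric.isClosed_closedBall.measurableSet]
    exact integrableOn_const (by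
      exact (isCompact_closedBall (0 : V) R).measure_lt_top.ne)
  · refine Eventually.of_forall fun x => ?_
    exact hf.comp (f := fun s => (s, x)) (by fun_prop) (fun s hs' => ⟨hs', mem_univ _⟩)

/-- Differentiation of an integral depending on a parameter. -/
theorem hasDerivAt_integral_compact {f f' : ℝ → V → ℝ} {a b R t : ℝ} (ht : t ∈ Ioo a b)
    (hf : ∀ s ∈ Ioo a b, Continuous (f s))
    (hf' : ContinuousOn (Function.uncurry f') (Ioo a b ×ˢ univ))
    (hd : ∀ s ∈ Ioo a b, ∀ x, HasDerivAt (fun s => f s x) (f' s x) s)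
    (hs : ∀ s ∈ Ioo a b, ∀ x, R < ‖x‖ → f s x = 0)
    (hs' : ∀ s ∈ Ioo a b, ∀ x, R < ‖x‖ → f' s x = 0) :
    HasDerivAt (fun s => ∫ x, f s x ∂μ) (∫ x, f' t x ∂μ) t := by
  obtain ⟨a', ha'⟩ := exists_between ht.1
  obtain ⟨b', hb'⟩ := exists_between ht.2
  have hsub : Icc a' b' ⊆ Ioo a b := fun s hs'' => ⟨ha'.1.trans_le hs''.1, hs''.2.trans_lt hb'.2⟩
  obtain ⟨C, hC⟩ := (isCompact_Icc.prod (isCompact_closedBall (0 : V) R)).exists_bound_of_continuousOn
    (hf'.mono (prod_mono hsub (subset_univ _)))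
  have hcomp : ∀ s ∈ Ioo a b, HasCompactSupport (f s) := fun s hs'' =>
    HasCompactSupport.intro (isCompact_closedBall (0 : V) R) fun x hx => hs s hs'' x (by
      simpa using hx)
  have hsec : ∀ s ∈ Ioo a b, Continuous (f' s) := by
    intro s hs''
    have : ContinuousOn (fun x => Function.uncurry f' (s, x)) univ :=
      hf'.comp (by fun_prop) (fun x _ => ⟨hs'', mem_univ _⟩)
    simpa [continuousOn_univ] using this
  refine (hasDerivAt_integral_of_dominated_loc_of_deriv_le (s := Icc a' b')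
    (bound := fun x => (Metric.closedBall (0 : V) R).indicator (fun _ => |C|) x)
    (Icc_mem_nhds ha'.2 hb'.1) ?_ ?_ ?_ ?_ ?_ ?_).2
  · filter_upwards [Ioo_mem_nhds ht.1 ht.2] with s hs''
    exact (hf s hs'').aestronglyMeasurable
  · exact (hf t ht).integrable_of_hasCompactSupport (hcomp t ht)
  · exact (hsec t ht).aestronglyMeasurable
  · refine Eventually.of_forall fun x s hs'' => ?_
    by_cases hx : x ∈ Metric.closedBall (0 : V) R
    · rw [indicator_of_mem hx]
      exact (hC (s, x) ⟨hs'', hx⟩).trans (le_abs_self C)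
    · rw [indicator_of_notMem hx]
      have : R < ‖x‖ := by simpa using hx
      simp [hs' s (hsub hs'') x this]
  · rw [integrable_indicator_iff Metric.isClosed_closedBall.measurableSet]
    exact integrableOn_const (by
      exact (isCompact_closedBall (0 : V) R).measure_lt_top.ne)
  · exact Eventually.of_forall fun x s hs'' => hd s (hsub hs'') x

end general

section inner

open scoped InnerProductSpace

variable {V : Type*} [NormedAddCommGroup V] [InnerProductSpace ℝ V] [FiniteDimensional ℝ V]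
  [MeasurableSpace V] [BorelSpace V]
variable {ι : Type*} [Fintype ι]

/-- The data of a smooth cutoff profile. -/
structure Profile (ι : Type*) where
  /-- the concave function -/
  phi : ℝ → ℝ
  /-- derivative of the concave function -/
  k : ℝ → ℝ
  /-- derivative of `k` -/
  k' : ℝ → ℝ
  /-- cutoffs -/
  a : ι → ℝ → ℝ
  /-- derivatives of the cutoffs -/
  b : ι → ℝ → ℝ
  /-- second derivatives of the cutoffs -/
  b' : ι → ℝ → ℝ
  /-- radius -/
  R : ℝ
  hphi : ∀ s, HasDerivAt phi (k s) s
  hphi0 : phi 0 = 0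
  hk : ∀ s, HasDerivAt k (k' s) s
  hk'c : Continuous k'
  hk' : ∀ s, k' s ≤ 0
  ha : ∀ i u, HasDerivAt (a i) (b i u) u
  hb : ∀ i u, HasDerivAt (b i) (b' i u) u
  hb'c : ∀ i, Continuous (b' i)
  hbneg : ∀ i u, b i u ≤ 0
  hsuppa : ∀ i u, R ^ 2 < u → a i u = 0
  hsupp : ∀ i u, R ^ 2 < u → b i u = 0
  hsupp' : ∀ i u, R ^ 2 < u → b' i u = 0
  hR : 0 ≤ R

namespace Profile

variable (D : Profile ι)

theorem continuous_k : Continuous D.k :=
  continuous_iff_continuousAt.mpr fun s => (D.hk s).continuousAt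

theorem continuous_a (i : ι) : Continuous (D.a i) :=
  continuous_iff_continuousAt.mpr fun s => (D.ha i s).continuousAt

theorem continuous_b (i : ι) : Continuous (D.b i) :=
  continuous_iff_continuousAt.mpr fun s => (D.hb i s).continuousAt

/-- Total cutoff. -/
noncomputable def S (P : ι → V) (X : V) : ℝ := ∑ l, D.a l (‖X - P l‖ ^ 2)

/-- The `i`-th density. -/
noncomputable def f (i : ι) (P : ι → V) (X : V) : ℝ := D.k (D.S P X) * D.b i (‖X - P i‖ ^ 2)

/-- The functional. -/
noncomputable def J (P : ι → V) : ℝ := - ∑ i, ∫ X, D.f i P X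

/-- Time derivative of the density, for velocities `W`. -/
noncomputable def ft (i : ι) (P W : ι → V) (X : V) : ℝ :=
  D.k' (D.S P X) * (∑ l, D.b l (‖X - P l‖ ^ 2) * (-2 * ⟪X - P l, W l⟫_ℝ)) * D.b i (‖X - P i‖ ^ 2)
    + D.k (D.S P X) * (D.b' i (‖X - P i‖ ^ 2) * (-2 * ⟪X - P i, W i⟫_ℝ))

/-- Space derivative of the density in direction `w`. -/
noncomputable def fx (i : ι) (P : ι → V) (w : V) (X : V) : ℝ :=
  D.k' (D.S P X) * (∑ l, D.b l (‖X - P l‖ ^ 2) * (2 * ⟪X - P l, w⟫_ℝ)) * D.b i (‖X - P i‖ ^ 2)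
    + D.k (D.S P X) * (D.b' i (‖X - P i‖ ^ 2) * (2 * ⟪X - P i, w⟫_ℝ))

theorem f_eq_zero {i : ι} {P : ι → V} {X : V} (h : D.R < ‖X - P i‖) : D.f i P X = 0 := by
  have : D.R ^ 2 < ‖X - P i‖ ^ 2 := by
    have := D.hR
    gcongr
  simp [f, D.hsupp i _ this]

theorem ft_eq_zero {i : ι} {P W : ι → V} {X : V} (h : D.R < ‖X - P i‖) : D.ft i P W X = 0 := by
  have : D.R ^ 2 < ‖X - P i‖ ^ 2 := by
    have := D.hR
    gcongr
  simp [ft, D.hsupp i _ this, D.hsupp' i _ this]

theorem fx_eq_zero {i : ι} {P : ι → V} {w : V} {X : V} (h : D.R < ‖X - P i‖) :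
    D.fx i P w X = 0 := by
  have : D.R ^ 2 < ‖X - P i‖ ^ 2 := by
    have := D.hR
    gcongr
  simp [fx, D.hsupp i _ this, D.hsupp' i _ this]

theorem hasDerivAt_f (i : ι) {P : ℝ → ι → V} {W : ι → V} {t : ℝ}
    (h : ∀ l, HasDerivAt (fun s => P s l) (W l) t) (X : V) :
    HasDerivAt (fun s => D.f i (P s) X) (D.ft i (P t) W X) t := by
  have hn : ∀ l, HasDerivAt (fun s => ‖X - P s l‖ ^ 2) (-2 * ⟪X - P t l, W l⟫_ℝ) t := by
    intro l
    have h1 : HasDerivAt (fun s => X - P s l) (-W l) t := by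
      simpa using (h l).const_sub X
    have h2 := h1.norm_sq
    convert h2 using 1
    rw [inner_neg_right]; ring
  have hS : HasDerivAt (fun s => D.S (P s) X)
      (∑ l, D.b l (‖X - P t l‖ ^ 2) * (-2 * ⟪X - P t l, W l⟫_ℝ)) t := by
    unfold S
    exact HasDerivAt.fun_sum fun l _ => (D.ha l _).comp t (hn l)
  exact (((D.hk _).comp t hS).mul ((D.hb i _).comp t (hn i)))

theorem hasLineDerivAt_f (i : ι) (P : ι → V) (w X : V) :
    HasLineDerivAt ℝ (D.f i P) (D.fx i P w X) X w := by
  have h1 := D.hasDerivAt_f i (P := fun s l => P l - s • w) (W := fun _ => -w) (t := 0)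
    (fun l => by
      have : HasDerivAt (fun s : ℝ => P l - s • w) (-((1 : ℝ) • w)) 0 :=
        ((hasDerivAt_id (0 : ℝ)).smul_const w).const_sub (P l)
      simpa using this) X
  have e1 : (fun s : ℝ => D.f i (fun l => P l - s • w) X) = fun s : ℝ => D.f i P (X + s • w) := by
    funext s
    have : ∀ l, X - (P l - s • w) = X + s • w - P l := fun l => by abel
    simp only [f, S, this]
  have e2 : D.ft i (fun l => P l - (0 : ℝ) • w) (fun _ => -w) X = D.fx i P w X := by
    simp only [ft, fx, zero_smul, sub_zero, inner_neg_right]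
    have : ∀ x : ℝ, -2 * -x = 2 * x := fun x => by ring
    simp only [this]
  rw [e1, e2] at h1
  exact h1

theorem continuous_f (i : ι) : Continuous (fun q : (ι → V) × V => D.f i q.1 q.2) := by
  unfold f S
  have := D.continuous_k
  have := D.continuous_a
  have := D.continuous_b i
  fun_prop

theorem continuous_ft (i : ι) :
    Continuous (fun q : (ι → V) × (ι → V) × V => D.ft i q.1 q.2.1 q.2.2) := by
  unfold ft S
  have := D.continuous_k
  have := D.continuous_a
  have := D.continuous_b
  have := D.hk'c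
  have := D.hb'c
  fun_prop

theorem continuous_f' (i : ι) (P : ι → V) : Continuous (D.f i P) := by
  unfold f S
  have := D.continuous_k
  have := D.continuous_a
  have := D.continuous_b i
  fun_prop

theorem continuous_ft' (i : ι) (P W : ι → V) : Continuous (D.ft i P W) := by
  unfold ft S
  have := D.continuous_k
  have := D.continuous_a
  have := D.continuous_b
  have := D.hk'c
  have := D.hb'c
  fun_prop

theorem continuous_fx (i : ι) (P : ι → V) (w : V) : Continuous (D.fx i P w) := by
  unfold fx S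
  have := D.continuous_k
  have := D.continuous_a
  have := D.continuous_b
  have := D.hk'c
  have := D.hb'c
  fun_prop

theorem hasCompactSupport_of {g : V → ℝ} (P : V) (h : ∀ X, D.R < ‖X - P‖ → g X = 0) :
    HasCompactSupport g :=
  HasCompactSupport.intro (isCompact_closedBall P D.R) fun x hx => h x (by
    simpa [dist_eq_norm] using hx)

theorem integral_fx (i : ι) (P : ι → V) (w : V) : ∫ X, D.fx i P w X = 0 := by
  have h1 : Continuous (D.f i P) := D.continuous_f' i P
  have h2 : HasCompactSupport (D.f i P) :=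
    D.hasCompactSupport_of (P i) fun X h => D.f_eq_zero h
  have h3 : HasCompactSupport (D.fx i P w) :=
    D.hasCompactSupport_of (P i) fun X h => D.fx_eq_zero h
  exact integral_lineDeriv_eq_zero volume h1 h2 (D.continuous_fx i P w) h3
    (fun X => D.hasLineDerivAt_f i P w X)

theorem pointwise (P W : ι → V) (X : V)
    (hexp : ∀ i j, 0 ≤ ⟪P i - P j, W i - W j⟫_ℝ) :
    ∑ i, (D.ft i P W X + D.fx i P (W i) X) ≤ 0 := by
  have e1 : ∀ i, D.ft i P W X + D.fx i P (W i) X =
      D.k' (D.S P X) * ∑ l, D.b i (‖X - P i‖ ^ 2) * D.b l (‖X - P l‖ ^ 2) *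
        (2 * ⟪X - P l, W i - W l⟫_ℝ) := by
    intro i
    have : ∑ l, D.b i (‖X - P i‖ ^ 2) * D.b l (‖X - P l‖ ^ 2) * (2 * ⟪X - P l, W i - W l⟫_ℝ) =
        ((∑ l, D.b l (‖X - P l‖ ^ 2) * (-2 * ⟪X - P l, W l⟫_ℝ)) +
          ∑ l, D.b l (‖X - P l‖ ^ 2) * (2 * ⟪X - P l, W i⟫_ℝ)) * D.b i (‖X - P i‖ ^ 2) := by
      rw [← Finset.sum_add_distrib, Finset.sum_mul]
      refine Finset.sum_congr rfl fun l _ => ?_
      rw [inner_sub_right]; ring
    rw [this, ft, fx]
    ring
  simp only [e1]
  rw [← Finset.mul_sum]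
  have hnn : 0 ≤ ∑ i, ∑ l, D.b i (‖X - P i‖ ^ 2) * D.b l (‖X - P l‖ ^ 2) *
        (2 * ⟪X - P l, W i - W l⟫_ℝ) := by
    have hswap : ∑ i, ∑ l, D.b i (‖X - P i‖ ^ 2) * D.b l (‖X - P l‖ ^ 2) *
        ⟪X - P l, W i - W l⟫_ℝ = ∑ i, ∑ l, D.b i (‖X - P i‖ ^ 2) * D.b l (‖X - P l‖ ^ 2) *
        (-⟪X - P i, W i - W l⟫_ℝ) := by
      rw [Finset.sum_comm]
      refine Finset.sum_congr rfl fun i _ => Finset.sum_congr rfl fun l _ => ?_
      have : W l - W i = -(W i - W l) := by abel
      rw [this, inner_neg_right]; ring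
    have e2 : ∑ i, ∑ l, D.b i (‖X - P i‖ ^ 2) * D.b l (‖X - P l‖ ^ 2) *
        (2 * ⟪X - P l, W i - W l⟫_ℝ) = ∑ i, ∑ l, D.b i (‖X - P i‖ ^ 2) * D.b l (‖X - P l‖ ^ 2) *
        ⟪P i - P l, W i - W l⟫_ℝ := by
      calc _ = (∑ i, ∑ l, D.b i (‖X - P i‖ ^ 2) * D.b l (‖X - P l‖ ^ 2) *
              ⟪X - P l, W i - W l⟫_ℝ) + ∑ i, ∑ l, D.b i (‖X - P i‖ ^ 2) *
              D.b l (‖X - P l‖ ^ 2) * ⟪X - P l, W i - W l⟫_ℝ := by
            rw [← Finset.sum_add_distrib]
            refine Finset.sum_congr rfl fun i _ => ?_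
            rw [← Finset.sum_add_distrib]
            refine Finset.sum_congr rfl fun l _ => ?_
            ring
        _ = (∑ i, ∑ l, D.b i (‖X - P i‖ ^ 2) * D.b l (‖X - P l‖ ^ 2) *
              ⟪X - P l, W i - W l⟫_ℝ) + ∑ i, ∑ l, D.b i (‖X - P i‖ ^ 2) *
              D.b l (‖X - P l‖ ^ 2) * (-⟪X - P i, W i - W l⟫_ℝ) := by rw [← hswap]
        _ = _ := by
            rw [← Finset.sum_add_distrib]
            refine Finset.sum_congr rfl fun i _ => ?_
            rw [← Finset.sum_add_distrib]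
            refine Finset.sum_congr rfl fun l _ => ?_
            have : P i - P l = (X - P l) - (X - P i) := by abel
            rw [this, inner_sub_left (X - P l) (X - P i)]; ring
    rw [e2]
    refine Finset.sum_nonneg fun i _ => Finset.sum_nonneg fun l _ => ?_
    exact mul_nonneg (mul_nonneg_of_nonpos_of_nonpos (D.hbneg _ _) (D.hbneg _ _)) (hexp i l)
  exact mul_nonpos_of_nonpos_of_nonneg (D.hk' _) hnn

/-- Monotonicity of `J` along expanding paths. -/
theorem J_mono {P W : ℝ → ι → V} (hPc : ContinuousOn P (Icc 0 1))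
    (hd : ∀ t ∈ Ioo (0 : ℝ) 1, ∀ i, HasDerivAt (fun s => P s i) (W t i) t)
    (hW : ContinuousOn W (Ioo 0 1))
    (hexp : ∀ t ∈ Ioo (0 : ℝ) 1, ∀ i j, 0 ≤ ⟪P t i - P t j, W t i - W t j⟫_ℝ) :
    D.J (P 0) ≤ D.J (P 1) := by
  obtain ⟨M, hM⟩ := isCompact_Icc.exists_bound_of_continuousOn hPc
  have hout : ∀ t ∈ Icc (0 : ℝ) 1, ∀ i, ∀ X : V, M + D.R < ‖X‖ → D.R < ‖X - P t i‖ := by
    intro t ht i X hX
    have h1 : ‖P t i‖ ≤ M := (norm_le_pi_norm (P t) i).trans (hM t ht)
    have h2 : ‖X‖ ≤ ‖X - P t i‖ + ‖P t i‖ := by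
      simpa using norm_add_le (X - P t i) (P t i)
    linarith
  have hcont : ∀ i, ContinuousOn (fun t => ∫ X, D.f i (P t) X) (Icc 0 1) := by
    intro i
    refine continuousOn_integral_compact volume (R := M + D.R) ?_ ?_
    · refine (D.continuous_f i).comp_continuousOn (f := fun q : ℝ × V => (P q.1, q.2)) ?_
      exact (hPc.comp continuousOn_fst (fun q hq => hq.1)).prodMk continuousOn_snd
    · intro s hs x hx
      exact D.f_eq_zero (hout s hs i x hx)
  have hderiv : ∀ i, ∀ t ∈ Ioo (0 : ℝ) 1, HasDerivAt (fun t => ∫ X, D.f i (P t) X)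
      (∫ X, D.ft i (P t) (W t) X) t := by
    intro i t ht
    refine hasDerivAt_integral_compact volume (R := M + D.R)
      (f := fun t X => D.f i (P t) X) (f' := fun t X => D.ft i (P t) (W t) X) ht ?_ ?_ ?_ ?_ ?_
    · intro s hs
      exact D.continuous_f' i (P s)
    · refine (D.continuous_ft i).comp_continuousOn (f := fun q : ℝ × V => (P q.1, W q.1, q.2)) ?_
      have hP' : ContinuousOn P (Ioo 0 1) := hPc.mono Ioo_subset_Icc_self
      exact (hP'.comp continuousOn_fst (fun q hq => hq.1)).prodMk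
        ((hW.comp continuousOn_fst (fun q hq => hq.1)).prodMk continuousOn_snd)
    · intro s hs x
      exact D.hasDerivAt_f i (hd s hs) x
    · intro s hs x hx
      exact D.f_eq_zero (hout s (Ioo_subset_Icc_self hs) i x hx)
    · intro s hs x hx
      exact D.ft_eq_zero (hout s (Ioo_subset_Icc_self hs) i x hx)
  have hJd : ∀ t ∈ Ioo (0 : ℝ) 1, HasDerivAt (fun t => D.J (P t))
      (-∑ i, ∫ X, D.ft i (P t) (W t) X) t := by
    intro t ht
    unfold J
    exact (HasDerivAt.fun_sum fun i _ => hderiv i t ht).neg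
  have hmono : MonotoneOn (fun t => D.J (P t)) (Icc 0 1) := by
    refine monotoneOn_of_deriv_nonneg (convex_Icc 0 1) ?_ ?_ ?_
    · unfold J
      exact (continuousOn_finsetSum _ fun i _ => hcont i).neg
    · rw [interior_Icc]
      intro t ht
      exact (hJd t ht).differentiableAt.differentiableWithinAt
    · rw [interior_Icc]
      intro t ht
      rw [(hJd t ht).deriv, neg_nonneg]
      have hint : ∀ i, Integrable (D.ft i (P t) (W t)) := by
        intro i
        refine Continuous.integrable_of_hasCompactSupport ?_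
          (D.hasCompactSupport_of (P t i) fun X h => D.ft_eq_zero h)
        exact D.continuous_ft' i (P t) (W t)
      have hintx : ∀ i, Integrable (D.fx i (P t) (W t i)) := by
        intro i
        exact (D.continuous_fx i (P t) (W t i)).integrable_of_hasCompactSupport
          (D.hasCompactSupport_of (P t i) fun X h => D.fx_eq_zero h)
      calc ∑ i, ∫ X, D.ft i (P t) (W t) X
          = ∑ i, ∫ X, (D.ft i (P t) (W t) X + D.fx i (P t) (W t i) X) := by
            refine Finset.sum_congr rfl fun i _ => ?_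
            rw [integral_add (hint i) (hintx i), D.integral_fx, add_zero]
        _ = ∫ X, ∑ i, (D.ft i (P t) (W t) X + D.fx i (P t) (W t i) X) := by
            rw [integral_finsetSum]
            intro i _
            exact (hint i).add (hintx i)
        _ ≤ 0 := integral_nonpos fun X => D.pointwise (P t) (W t) X (hexp t ht)
  exact hmono (left_mem_Icc.mpr zero_le_one) (right_mem_Icc.mpr zero_le_one) zero_le_one

end Profile

end inner

end Pool.Agent.Kneser
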