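import Pool.Agent.Kneser.Core

/-!
# Configurations with few points

If `n ≤ finrank V + 1` and the configuration `P` is an expansion of `Q`, both in `V`, then
`J Q ≤ J P`.
-/

set_option autoImplicit false
set_option linter.unusedSectionVars false

namespace Pool.Agent.Kneser

open MeasureTheory Set Filter Topology Module
open scoped InnerProductSpace

variable {V : Type*} [NormedAddCommGroup V] [InnerProductSpace ℝ V] [FiniteDimensional ℝ V]
  [MeasurableSpace V] [BorelSpace V]
variable {ι : Type*} [Fintype ι]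

namespace Profile

variable (D : Profile ι)

theorem J_isometry (O : V ≃ₗᵢ[ℝ] V) (P : ι → V) : D.J (fun i => O (P i)) = D.J P := by
  unfold J
  congr 1
  refine Finset.sum_congr rfl fun i _ => ?_
  have h := O.measurePreserving.integral_comp (O.toHomeomorph.measurableEmbedding)
    (D.f i (fun i => O (P i)))
  rw [← h]
  congr 1
  ext X
  simp only [f, S, ← map_sub, O.norm_map]

theorem J_translate (v : V) (P : ι → V) : D.J (fun i => P i + v) = D.J P := by
  unfold J
  congr 1
  refine Finset.sum_congr rfl fun i _ => ?_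
  rw [← integral_add_right_eq_self (D.f i (fun i => P i + v)) v]
  congr 1
  ext X
  simp only [f, S, add_sub_add_right_eq_sub]

theorem J_le_linear (K : V ≃ₗ[ℝ] V) (y : ι → V)
    (h : ∀ i j, ‖y i - y j‖ ≤ ‖K (y i - y j)‖) : D.J y ≤ D.J (fun i => K (y i)) := by
  set K0 : V →ₗ[ℝ] V := K.toLinearMap with hK0
  set T : V →ₗ[ℝ] V := LinearMap.adjoint K0 * K0 with hT
  have hsym : T.IsSymmetric := LinearMap.isSymmetric_adjoint_mul_self K0
  set w := hsym.eigenvectorBasis rfl with hw
  set lam := hsym.eigenvalues rfl with hlam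
  have hTin : ∀ v, ⟪T v, v⟫_ℝ = ‖K v‖ ^ 2 := by
    intro v
    rw [hT, Module.End.mul_apply, LinearMap.adjoint_inner_left, real_inner_self_eq_norm_sq]
    rfl
  have hTw : ∀ a, T (w a) = lam a • w a := fun a => hsym.apply_eigenvectorBasis rfl a
  have hlam0 : ∀ a, 0 ≤ lam a := by
    intro a
    have h1 := hTin (w a)
    rw [hTw, real_inner_smul_left, real_inner_self_eq_norm_sq, w.orthonormal.1 a] at h1
    have : lam a = ‖K (w a)‖ ^ 2 := by linarith
    rw [this]; positivity
  have hKv : ∀ v, ‖K v‖ ^ 2 = ∑ a, lam a * ⟪w a, v⟫_ℝ ^ 2 := by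
    intro v
    rw [← hTin v, ← w.sum_inner_mul_inner (T v) v]
    refine Finset.sum_congr rfl fun a _ => ?_
    rw [hsym v (w a), hTw, real_inner_smul_right, real_inner_comm (w a) v]
    ring
  have hv : ∀ v : V, ‖v‖ ^ 2 = ∑ a, ⟪w a, v⟫_ℝ ^ 2 := by
    intro v
    rw [← real_inner_self_eq_norm_sq, ← w.sum_inner_mul_inner v v]
    refine Finset.sum_congr rfl fun a _ => ?_
    rw [real_inner_comm (w a) v]
    ring
  have hpos : ∀ t ∈ Ioo (0 : ℝ) 1, ∀ a, 0 < 1 - t + t * lam a := by
    intro t ht a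
    have := hlam0 a
    have := ht.1
    have := ht.2
    have : 0 ≤ t * lam a := by positivity
    linarith
  -- the path
  set P : ℝ → ι → V := fun t i => ∑ a, (√(1 - t + t * lam a) * ⟪w a, y i⟫_ℝ) • w a with hP
  set W : ℝ → ι → V := fun t i =>
    ∑ a, ((lam a - 1) / (2 * √(1 - t + t * lam a)) * ⟪w a, y i⟫_ℝ) • w a with hW
  have hP0 : P 0 = y := by
    funext i
    simp only [hP, sub_zero, zero_mul, add_zero, Real.sqrt_one, one_mul]
    exact w.sum_repr' (y i)
  have hPc : ContinuousOn P (Icc 0 1) := by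
    refine Continuous.continuousOn ?_
    refine continuous_pi fun i => ?_
    simp only [hP]
    fun_prop
  have hd : ∀ t ∈ Ioo (0 : ℝ) 1, ∀ i, HasDerivAt (fun s => P s i) (W t i) t := by
    intro t ht i
    simp only [hP, hW]
    refine HasDerivAt.fun_sum fun a _ => ?_
    refine HasDerivAt.smul_const ?_ (w a)
    refine HasDerivAt.mul_const ?_ _
    have h1 : HasDerivAt (fun s : ℝ => 1 - s + s * lam a) (lam a - 1) t := by
      have h2 := ((hasDerivAt_id t).const_sub 1).add ((hasDerivAt_id t).mul_const (lam a))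
      refine h2.congr_deriv ?_
      ring
    exact h1.sqrt (hpos t ht a).ne'
  have hWc : ContinuousOn W (Ioo 0 1) := by
    refine continuousOn_pi.mpr fun i => ?_
    simp only [hW]
    refine continuousOn_finsetSum _ fun a _ => ?_
    refine ContinuousOn.smul (ContinuousOn.mul (ContinuousOn.div continuousOn_const ?_ ?_)
      continuousOn_const) continuousOn_const
    · apply Continuous.continuousOn; fun_prop
    · intro t ht
      have := Real.sqrt_pos.mpr (hpos t ht a)
      positivity
  have hexp : ∀ t ∈ Ioo (0 : ℝ) 1, ∀ i j, 0 ≤ ⟪P t i - P t j, W t i - W t j⟫_ℝ := by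
    intro t ht i j
    have e1 : P t i - P t j = ∑ a, (√(1 - t + t * lam a) * ⟪w a, y i - y j⟫_ℝ) • w a := by
      simp only [hP]
      rw [← Finset.sum_sub_distrib]
      refine Finset.sum_congr rfl fun a _ => ?_
      rw [← sub_smul, inner_sub_right, mul_sub]
    have e2 : W t i - W t j = ∑ a, ((lam a - 1) / (2 * √(1 - t + t * lam a)) *
        ⟪w a, y i - y j⟫_ℝ) • w a := by
      simp only [hW]
      rw [← Finset.sum_sub_distrib]
      refine Finset.sum_congr rfl fun a _ => ?_
      rw [← sub_smul, inner_sub_right, mul_sub]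
    rw [e1, e2, w.orthonormal.inner_sum]
    have e3 : ∑ a, (starRingEnd ℝ) (√(1 - t + t * lam a) * ⟪w a, y i - y j⟫_ℝ) *
        ((lam a - 1) / (2 * √(1 - t + t * lam a)) * ⟪w a, y i - y j⟫_ℝ) =
        (‖K (y i - y j)‖ ^ 2 - ‖y i - y j‖ ^ 2) / 2 := by
      rw [hKv, hv, ← Finset.sum_sub_distrib, Finset.sum_div]
      refine Finset.sum_congr rfl fun a _ => ?_
      have hs := (Real.sqrt_pos.mpr (hpos t ht a)).ne'
      simp only [conj_trivial]
      field_simp
    rw [e3]
    have h1 := h i j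
    have h2 : ‖y i - y j‖ ^ 2 ≤ ‖K (y i - y j)‖ ^ 2 := by gcongr
    linarith
  have hmain := D.J_mono hPc hd hWc hexp
  -- the end of the path
  let C1 : V →ₗ[ℝ] V := ∑ a, (LinearMap.toSpanSingleton ℝ V (√(lam a) • w a)) ∘ₗ
    (innerₗ V (w a))
  have hC1 : ∀ v, C1 v = ∑ a, (√(lam a) * ⟪w a, v⟫_ℝ) • w a := by
    intro v
    simp only [C1, LinearMap.sum_apply, LinearMap.comp_apply, LinearMap.toSpanSingleton_apply,
      innerₗ_apply_apply]
    refine Finset.sum_congr rfl fun a _ => ?_
    rw [smul_smul, mul_comm]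
  have hC1n : ∀ v, ‖C1 v‖ ^ 2 = ‖K v‖ ^ 2 := by
    intro v
    rw [hKv, hC1, ← real_inner_self_eq_norm_sq, w.orthonormal.inner_sum]
    refine Finset.sum_congr rfl fun a _ => ?_
    simp only [conj_trivial]
    have := Real.mul_self_sqrt (hlam0 a)
    calc √(lam a) * ⟪w a, v⟫_ℝ * (√(lam a) * ⟪w a, v⟫_ℝ)
        = (√(lam a) * √(lam a)) * ⟪w a, v⟫_ℝ ^ 2 := by ring
      _ = _ := by rw [this]
  let O1 : V →ₗᵢ[ℝ] V :=
    { toLinearMap := C1 ∘ₗ K.symm.toLinearMap
      norm_map' := fun z => by
        have h1 := hC1n (K.symm z)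
        rw [K.apply_symm_apply] at h1
        have h2 := (sq_eq_sq₀ (norm_nonneg _) (norm_nonneg _)).mp h1
        exact h2 }
  let O : V ≃ₗᵢ[ℝ] V := O1.toLinearIsometryEquiv rfl
  have hO : ∀ i, O (K (y i)) = P 1 i := by
    intro i
    have h1 : O (K (y i)) = C1 (K.symm (K (y i))) := rfl
    rw [h1, K.symm_apply_apply, hC1]
    simp only [hP]
    refine Finset.sum_congr rfl fun a _ => ?_
    norm_num
  have hend : D.J (P 1) = D.J (fun i => K (y i)) := by
    rw [← D.J_isometry O (fun i => K (y i))]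
    congr 1
    funext i
    exact (hO i).symm
  rw [hP0, hend] at hmain
  exact hmain

theorem J_le_equiv (Q P : V ≃ₗ[ℝ] V) (x : ι → V)
    (h : ∀ i j, ‖Q (x i - x j)‖ ≤ ‖P (x i - x j)‖) :
    D.J (fun i => Q (x i)) ≤ D.J (fun i => P (x i)) := by
  have := D.J_le_linear (Q.symm.trans P) (fun i => Q (x i)) (fun i j => by
    rw [← map_sub]
    simpa using h i j)
  simpa using this

theorem continuousOn_J {P : ℝ → ι → V} (hPc : ContinuousOn P (Icc 0 1)) :
    ContinuousOn (fun t => D.J (P t)) (Icc 0 1) := by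
  obtain ⟨M, hM⟩ := isCompact_Icc.exists_bound_of_continuousOn hPc
  have hout : ∀ t ∈ Icc (0 : ℝ) 1, ∀ i, ∀ X : V, M + D.R < ‖X‖ → D.R < ‖X - P t i‖ := by
    intro t ht i X hX
    have h1 : ‖P t i‖ ≤ M := (norm_le_pi_norm (P t) i).trans (hM t ht)
    have h2 : ‖X‖ ≤ ‖X - P t i‖ + ‖P t i‖ := by
      simpa using norm_add_le (X - P t i) (P t i)
    linarith
  have hcont : ∀ i, ContinuousOn (fun t => ∫ X, D.f i (P t) X) (Icc 0 1) := by
    intro i
    refine continuousOn_integral_compact volume (R := M + D.R) ?_ ?_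
    · refine (D.continuous_f i).comp_continuousOn (f := fun q : ℝ × V => (P q.1, q.2)) ?_
      exact (hPc.comp continuousOn_fst (fun q hq => hq.1)).prodMk continuousOn_snd
    · intro s hs x hx
      exact D.f_eq_zero (hout s hs i x hx)
  unfold J
  exact (continuousOn_finsetSum _ fun i _ => hcont i).neg

theorem tendsto_J {P : ℝ → ι → V} (hPc : Continuous P) :
    Tendsto (fun t => D.J (P t)) (𝓝[>] 0) (𝓝 (D.J (P 0))) := by
  have h := D.continuousOn_J hPc.continuousOn 0 (left_mem_Icc.mpr zero_le_one)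
  exact h.mono_left (nhdsWithin_le_of_mem
    (mem_of_superset (Ioc_mem_nhdsGT zero_lt_one) Ioc_subset_Icc_self))

theorem eventually_isUnit (f : Module.End ℝ V) :
    ∀ᶠ ε in 𝓝[>] (0 : ℝ), IsUnit (f + ε • (1 : Module.End ℝ V)) := by
  have hfin : (spectrum ℝ (-f)).Finite := Module.End.finite_spectrum (-f)
  have h1 : (spectrum ℝ (-f) \ {0})ᶜ ∈ 𝓝 (0 : ℝ) :=
    (hfin.subset sdiff_subset).isClosed.isOpen_compl.mem_nhds (by simp)
  filter_upwards [nhdsWithin_le_nhds h1, self_mem_nhdsWithin] with ε hε hpos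
  have hne : ε ≠ 0 := ne_of_gt hpos
  have h2 : ε ∉ spectrum ℝ (-f) := fun h => hε ⟨h, hne⟩
  rw [spectrum.notMem_iff, sub_neg_eq_add, Algebra.algebraMap_eq_smul_one] at h2
  rwa [add_comm]

theorem J_le_of_linear (Q0 P0 : Module.End ℝ V) (x : ι → V)
    (h : ∀ i j, ‖Q0 (x i - x j)‖ ≤ ‖P0 (x i - x j)‖) :
    D.J (fun i => Q0 (x i)) ≤ D.J (fun i => P0 (x i)) := by
  -- first step: contraction by a factor `1 - η`
  have step : ∀ η ∈ Ioo (0 : ℝ) 1, D.J (fun i => ((1 - η) • Q0) (x i)) ≤
      D.J (fun i => P0 (x i)) := by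
    intro η hη
    have hu1 := eventually_isUnit ((1 - η) • Q0)
    have hu2 := eventually_isUnit P0
    have hd : ∀ᶠ ε in 𝓝[>] (0 : ℝ), ∀ i j,
        ‖((1 - η) • Q0 + ε • (1 : Module.End ℝ V)) (x i - x j)‖ ≤
          ‖(P0 + ε • (1 : Module.End ℝ V)) (x i - x j)‖ := by
      rw [eventually_all]
      intro i
      rw [eventually_all]
      intro j
      by_cases hij : P0 (x i - x j) = 0
      · have hq : Q0 (x i - x j) = 0 := by
          have := h i j
          rw [hij, norm_zero] at this
          exact norm_le_zero_iff.mp this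
        refine Eventually.of_forall fun ε => ?_
        rw [LinearMap.add_apply, LinearMap.add_apply, LinearMap.smul_apply, hq, hij, smul_zero]
      · have hlt : ‖((1 - η) • Q0 + (0 : ℝ) • (1 : Module.End ℝ V)) (x i - x j)‖ <
            ‖(P0 + (0 : ℝ) • (1 : Module.End ℝ V)) (x i - x j)‖ := by
          simp only [zero_smul, add_zero, LinearMap.smul_apply, norm_smul]
          have h1 := h i j
          have h2 : 0 < ‖P0 (x i - x j)‖ := norm_pos_iff.mpr hij
          rw [Real.norm_of_nonneg (by linarith [hη.2] : (0 : ℝ) ≤ 1 - η)]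
          nlinarith [hη.1, hη.2, norm_nonneg (Q0 (x i - x j))]
        have hc1 : Continuous fun ε : ℝ =>
            ‖((1 - η) • Q0 + ε • (1 : Module.End ℝ V)) (x i - x j)‖ := by
          simp only [LinearMap.add_apply, LinearMap.smul_apply, Module.End.one_apply]
          fun_prop
        have hc2 : Continuous fun ε : ℝ =>
            ‖(P0 + ε • (1 : Module.End ℝ V)) (x i - x j)‖ := by
          simp only [LinearMap.add_apply, LinearMap.smul_apply, Module.End.one_apply]
          fun_prop
        have := (hc1.continuousAt (x := 0)).eventually_lt hc2.continuousAt hlt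
        exact (this.filter_mono nhdsWithin_le_nhds).mono fun ε hε => le_of_lt hε
    have hle : ∀ᶠ ε in 𝓝[>] (0 : ℝ),
        D.J (fun i => ((1 - η) • Q0 + ε • (1 : Module.End ℝ V)) (x i)) ≤
          D.J (fun i => (P0 + ε • (1 : Module.End ℝ V)) (x i)) := by
      filter_upwards [hu1, hu2, hd] with ε h1 h2 h3
      let A : V ≃ₗ[ℝ] V := LinearMap.GeneralLinearGroup.generalLinearEquiv ℝ V h1.unit
      let B : V ≃ₗ[ℝ] V := LinearMap.GeneralLinearGroup.generalLinearEquiv ℝ V h2.unit
      exact D.J_le_equiv A B x h3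
    have ht1 : Tendsto (fun ε : ℝ => D.J (fun i => ((1 - η) • Q0 + ε • (1 : Module.End ℝ V)) (x i)))
        (𝓝[>] 0) (𝓝 (D.J (fun i => ((1 - η) • Q0) (x i)))) := by
      have := D.tendsto_J (P := fun ε : ℝ => fun i =>
        ((1 - η) • Q0 + ε • (1 : Module.End ℝ V)) (x i)) (by
          simp only [LinearMap.add_apply, LinearMap.smul_apply, Module.End.one_apply]
          fun_prop)
      simpa using this
    have ht2 : Tendsto (fun ε : ℝ => D.J (fun i => (P0 + ε • (1 : Module.End ℝ V)) (x i)))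
        (𝓝[>] 0) (𝓝 (D.J (fun i => P0 (x i)))) := by
      have := D.tendsto_J (P := fun ε : ℝ => fun i =>
        (P0 + ε • (1 : Module.End ℝ V)) (x i)) (by
          simp only [LinearMap.add_apply, LinearMap.smul_apply, Module.End.one_apply]
          fun_prop)
      simpa using this
    exact le_of_tendsto_of_tendsto ht1 ht2 hle
  have ht : Tendsto (fun η : ℝ => D.J (fun i => ((1 - η) • Q0) (x i)))
      (𝓝[>] 0) (𝓝 (D.J (fun i => Q0 (x i)))) := by
    have := D.tendsto_J (P := fun η : ℝ => fun i => ((1 - η) • Q0) (x i)) (by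
      simp only [LinearMap.smul_apply]
      fun_prop)
    simpa using this
  refine le_of_tendsto ht ?_
  filter_upwards [Ioo_mem_nhdsGT zero_lt_one] with η hη
  exact step η hη

end Profile

/-- Few points: expansion of configurations in dimension at least `n - 1`. -/
theorem Profile.J_le_of_card {n : ℕ} (D : Profile (Fin n)) (hn : n ≤ finrank ℝ V + 1)
    (P Q : Fin n → V) (h : ∀ i j, dist (Q i) (Q j) ≤ dist (P i) (P j)) : D.J Q ≤ D.J P := by
  rcases n with _ | k
  · simp [Profile.J]
  have hk : k ≤ finrank ℝ V := by omega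
  set b := stdOrthonormalBasis ℝ V with hb
  let x : Fin (k + 1) → V := Fin.cases 0 (fun i => b (Fin.castLE hk i))
  let mk : (Fin (k + 1) → V) → Module.End ℝ V := fun R =>
    b.toBasis.constr ℝ (fun a => if h : a.val < k then R ⟨a.val + 1, by omega⟩ - R 0 else 0)
  have hmk : ∀ R i, mk R (x i) = R i - R 0 := by
    intro R i
    refine Fin.cases ?_ (fun i => ?_) i
    · simp [x]
    · have h1 : mk R (x i.succ) = mk R (b.toBasis (Fin.castLE hk i)) := by
        simp [x]
      rw [h1]
      simp only [mk, Basis.constr_basis]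
      rw [dif_pos (by simp)]
      rfl
  have hdiff : ∀ R i j, mk R (x i - x j) = R i - R j := by
    intro R i j
    rw [map_sub, hmk, hmk]; abel
  have h1 := D.J_le_of_linear (mk Q) (mk P) x (fun i j => by
    rw [hdiff, hdiff, ← dist_eq_norm, ← dist_eq_norm]
    exact h i j)
  have h2 : ∀ R : Fin (k + 1) → V, D.J (fun i => mk R (x i)) = D.J R := by
    intro R
    rw [← D.J_translate (R 0) (fun i => mk R (x i))]
    congr 1
    funext i
    rw [hmk]; abel
  rw [h2, h2] at h1
  exact h1

end Pool.Agent.Kneser
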