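import Pool.Agent.Kneser.Core

/-!
# The lift: `J` of a configuration lying in a subspace of codimension two
-/

set_option autoImplicit false
set_option linter.unusedSectionVars false

namespace Pool.Agent.Kneser

open MeasureTheory Set Filter Topology
open scoped InnerProductSpace

/-- The Euclidean plane. -/
abbrev Pl := EuclideanSpace ℝ (Fin 2)

theorem real_ball_plane : (volume : Measure Pl).real (Metric.ball 0 1) = Real.pi := by
  rw [Measure.real, EuclideanSpace.volume_ball_fin_two]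
  simp [Real.pi_nonneg]

/-- Integral of a radial function in the plane, in the variable `‖y‖ ^ 2`. -/
theorem integral_plane (G : ℝ → ℝ) :
    ∫ y : Pl, G (‖y‖ ^ 2) = Real.pi * ∫ r in Ioi (0 : ℝ), 2 * r * G (r ^ 2) := by
  have h := integral_fun_norm_addHaar (volume : Measure Pl) (fun r => G (r ^ 2))
  rw [h, real_ball_plane]
  simp only [finrank_euclideanSpace, Fintype.card_fin, smul_eq_mul, nsmul_eq_mul]
  have : ∫ r in Ioi (0 : ℝ), 2 * r * G (r ^ 2) = 2 * ∫ r in Ioi (0 : ℝ), r * G (r ^ 2) := by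
    rw [← integral_const_mul]
    congr 1
    ext r
    ring
  rw [this]
  norm_num
  ring

variable {E : Type*} [NormedAddCommGroup E] [InnerProductSpace ℝ E] [FiniteDimensional ℝ E]
  [MeasurableSpace E] [BorelSpace E]
variable {ι : Type*} [Fintype ι]

namespace Profile

variable (D : Profile ι)

/-- The inner radial integral. -/
theorem radial (α : ι → ℝ) (hα : ∀ i, 0 ≤ α i) :
    ∫ y : Pl, -(∑ i, D.k (∑ l, D.a l (α l + ‖y‖ ^ 2)) * D.b i (α i + ‖y‖ ^ 2)) =
      Real.pi * D.phi (∑ l, D.a l (α l)) := by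
  rw [integral_plane (fun r => -(∑ i, D.k (∑ l, D.a l (α l + r)) * D.b i (α i + r)))]
  congr 1
  have hderiv : ∀ r ∈ Ioi (0 : ℝ), HasDerivAt (fun r => -D.phi (∑ l, D.a l (α l + r ^ 2)))
      (2 * r * -(∑ i, D.k (∑ l, D.a l (α l + r ^ 2)) * D.b i (α i + r ^ 2))) r := by
    intro r _
    have h1 : ∀ l, HasDerivAt (fun r : ℝ => D.a l (α l + r ^ 2)) (D.b l (α l + r ^ 2) * (2 * r)) r := by
      intro l
      have h2 : HasDerivAt (fun r : ℝ => α l + r ^ 2) (2 * r) r := by
        simpa using (hasDerivAt_pow 2 r).const_add (α l)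
      exact (D.ha l _).comp r h2
    have h3 : HasDerivAt (fun r : ℝ => ∑ l, D.a l (α l + r ^ 2))
        (∑ l, D.b l (α l + r ^ 2) * (2 * r)) r := HasDerivAt.fun_sum fun l _ => h1 l
    have h4 : HasDerivAt (fun r => -D.phi (∑ l, D.a l (α l + r ^ 2)))
        (-(D.k (∑ l, D.a l (α l + r ^ 2)) * ∑ l, D.b l (α l + r ^ 2) * (2 * r))) r :=
      ((D.hphi (∑ l, D.a l (α l + r ^ 2))).comp r h3).neg
    refine h4.congr_deriv ?_
    rw [← Finset.sum_mul, ← Finset.mul_sum]
    ring
  have hzero : ∀ r : ℝ, D.R < r → (∑ l, D.a l (α l + r ^ 2)) = 0 := by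
    intro r hr
    refine Finset.sum_eq_zero fun l _ => D.hsuppa l _ ?_
    have := D.hR
    have h2 : D.R ^ 2 < r ^ 2 := by gcongr
    linarith [hα l]
  have hzero' : ∀ r : ℝ, D.R < r → ∀ i, D.b i (α i + r ^ 2) = 0 := by
    intro r hr i
    refine D.hsupp i _ ?_
    have := D.hR
    have h2 : D.R ^ 2 < r ^ 2 := by gcongr
    linarith [hα i]
  have hcont : Continuous (fun r : ℝ =>
      (2 * r * -(∑ i, D.k (∑ l, D.a l (α l + r ^ 2)) * D.b i (α i + r ^ 2)))) := by
    have := D.continuous_k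
    have := D.continuous_a
    have := D.continuous_b
    fun_prop
  have hint : IntegrableOn (fun r : ℝ =>
      (2 * r * -(∑ i, D.k (∑ l, D.a l (α l + r ^ 2)) * D.b i (α i + r ^ 2)))) (Ioi 0) := by
    have h1 : IntegrableOn (fun r : ℝ =>
      (2 * r * -(∑ i, D.k (∑ l, D.a l (α l + r ^ 2)) * D.b i (α i + r ^ 2)))) (Icc 0 D.R) :=
      hcont.continuousOn.integrableOn_Icc
    have h2 : IntegrableOn (fun r : ℝ =>
      (2 * r * -(∑ i, D.k (∑ l, D.a l (α l + r ^ 2)) * D.b i (α i + r ^ 2)))) (Ioi D.R) := by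
      refine (integrableOn_zero (s := Ioi D.R)).congr_fun (fun r hr => ?_) measurableSet_Ioi
      simp [hzero' r hr]
    refine (h1.union h2).mono_set fun r hr => ?_
    rcases le_or_gt r D.R with h | h
    · exact Or.inl ⟨(le_of_lt hr), h⟩
    · exact Or.inr h
  have htend : Tendsto (fun r : ℝ => -D.phi (∑ l, D.a l (α l + r ^ 2))) atTop (𝓝 0) := by
    refine tendsto_const_nhds.congr' ?_
    filter_upwards [eventually_gt_atTop D.R] with r hr
    rw [hzero r hr, D.hphi0, neg_zero]
  have hphic : Continuous D.phi := continuous_iff_continuousAt.mpr fun s => (D.hphi s).continuousAt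
  have hc0 : ContinuousWithinAt (fun r : ℝ => -D.phi (∑ l, D.a l (α l + r ^ 2))) (Ici 0) 0 := by
    have := D.continuous_a
    apply Continuous.continuousWithinAt
    fun_prop
  rw [integral_Ioi_of_hasDerivAt_of_tendsto hc0 hderiv hint htend]
  simp

/-- The value of `J` on a configuration contained in the factor `E` of `E × ℝ²`. -/
theorem J_lift (p : ι → E) :
    D.J (fun i => WithLp.toLp 2 (p i, (0 : Pl))) =
      Real.pi * ∫ x : E, D.phi (∑ l, D.a l (‖x - p l‖ ^ 2)) := by
  set P : ι → WithLp 2 (E × Pl) := fun i => WithLp.toLp 2 (p i, (0 : Pl)) with hP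
  have hint : ∀ i, Integrable (D.f i P) := fun i =>
    (D.continuous_f' i P).integrable_of_hasCompactSupport
      (D.hasCompactSupport_of (P i) fun X h => D.f_eq_zero h)
  have h1 : D.J P = ∫ X : WithLp 2 (E × Pl), -(∑ i, D.f i P X) := by
    rw [J, integral_neg, integral_finsetSum _ fun i _ => hint i]
  have hint' : Integrable (fun X : WithLp 2 (E × Pl) => -(∑ i, D.f i P X)) :=
    (integrable_finsetSum _ fun i _ => hint i).neg
  have hmp := WithLp.volume_preserving_symm_measurableEquiv_toLp_prod E Pl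
  have hmp' := hmp.symm
  have h2 : ∫ X : WithLp 2 (E × Pl), -(∑ i, D.f i P X) =
      ∫ z : E × Pl, -(∑ i, D.f i P (WithLp.toLp 2 z)) :=
    (hmp'.integral_comp (MeasurableEquiv.measurableEmbedding _) _).symm
  have hint2 : Integrable (fun z : E × Pl => -(∑ i, D.f i P (WithLp.toLp 2 z))) (volume.prod volume) :=
    (hmp'.integrable_comp_emb (MeasurableEquiv.measurableEmbedding _)).mpr hint'
  have hnorm : ∀ (l : ι) (x : E) (y : Pl), ‖WithLp.toLp 2 (x, y) - P l‖ ^ 2 = ‖x - p l‖ ^ 2 + ‖y‖ ^ 2 := by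
    intro l x y
    rw [hP, WithLp.prod_norm_sq_eq_of_L2]
    simp
  rw [h1, h2]
  change ∫ z : E × Pl, -(∑ i, D.f i P (WithLp.toLp 2 z)) ∂(volume.prod volume) = _
  rw [integral_prod _ hint2, ← integral_const_mul]
  congr 1
  ext x
  have := D.radial (fun l => ‖x - p l‖ ^ 2) (fun l => by positivity)
  rw [← this]
  congr 1
  ext y
  simp only [f, S, hnorm]

end Profile

end Pool.Agent.Kneser
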