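import Pool.Agent.Kneser.Core

/-!
# Expanding paths
-/

set_option autoImplicit false
set_option linter.unusedSectionVars false

namespace Pool.Agent.Kneser

open MeasureTheory Set Filter Topology
open scoped InnerProductSpace

section monotone

variable {V : Type*} [NormedAddCommGroup V] [InnerProductSpace ℝ V] [FiniteDimensional ℝ V]
  [MeasurableSpace V] [BorelSpace V]
variable {ι : Type*} [Fintype ι]

/-- Monotonicity of `J` along `C^1` paths along which all distances are nondecreasing. -/
theorem Profile.J_mono_of_dist (D : Profile ι) {P W : ℝ → ι → V}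
    (hPc : ∀ i, ContinuousOn (fun t => P t i) (Icc 0 1))
    (hd : ∀ t ∈ Ioo (0 : ℝ) 1, ∀ i, HasDerivAt (fun s => P s i) (W t i) t)
    (hW : ∀ i, ContinuousOn (fun t => W t i) (Ioo 0 1))
    (hdist : ∀ i j, MonotoneOn (fun t => dist (P t i) (P t j)) (Icc 0 1)) :
    D.J (P 0) ≤ D.J (P 1) := by
  refine D.J_mono (continuousOn_pi.mpr hPc) hd (continuousOn_pi.mpr hW) ?_
  intro t ht i j
  have h1 : HasDerivAt (fun s => ‖P s i - P s j‖ ^ 2) (2 * ⟪P t i - P t j, W t i - W t j⟫_ℝ) t :=
    ((hd t ht i).sub (hd t ht j)).norm_sq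
  have h2 : MonotoneOn (fun s => ‖P s i - P s j‖ ^ 2) (Icc 0 1) := by
    intro s hs s' hs' hss
    have := hdist i j hs hs' hss
    simp only [dist_eq_norm] at this
    simp only
    gcongr
  have h3 : 0 ≤ derivWithin (fun s => ‖P s i - P s j‖ ^ 2) (Icc 0 1) t := h2.derivWithin_nonneg
  rw [h1.hasDerivWithinAt.derivWithin
    ((uniqueDiffOn_Icc zero_lt_one) t (Ioo_subset_Icc_self ht))] at h3
  linarith

end monotone

section trig

variable {E F : Type*} [NormedAddCommGroup E] [InnerProductSpace ℝ E] [FiniteDimensional ℝ E]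
  [MeasurableSpace E] [BorelSpace E]
  [NormedAddCommGroup F] [InnerProductSpace ℝ F] [FiniteDimensional ℝ F]
  [MeasurableSpace F] [BorelSpace F]
variable {ι : Type*} [Fintype ι]

theorem inner_add_sub_eq (x y : E) : ⟪x + y, x - y⟫_ℝ = ‖x‖ * ‖x‖ - ‖y‖ * ‖y‖ := by
  rw [inner_add_left, inner_sub_right, inner_sub_right, real_inner_self_eq_norm_mul_norm,
    real_inner_self_eq_norm_mul_norm, real_inner_comm x y]
  ring

/-- The trigonometric path in `E × F`, for a linear map `L : E → F` preserving the norms of the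
differences of the displacements. -/
theorem Profile.J_le_trig (D : Profile ι) (p q : ι → E) (L : E →ₗ[ℝ] F)
    (hL : ∀ i j, ‖L ((q i - p i) - (q j - p j))‖ = ‖(q i - p i) - (q j - p j)‖)
    (h : ∀ i j, dist (q i) (q j) ≤ dist (p i) (p j)) :
    D.J (fun i => WithLp.toLp 2 (q i, (0 : F))) ≤ D.J (fun i => WithLp.toLp 2 (p i, (0 : F))) := by
  set A : ι → E := fun i => (2 : ℝ)⁻¹ • (q i + p i) with hA
  set B : ι → E := fun i => (2 : ℝ)⁻¹ • (q i - p i) with hB
  set P : ℝ → ι → WithLp 2 (E × F) := fun t i =>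
    WithLp.toLp 2 (A i + Real.cos (Real.pi * t) • B i, Real.sin (Real.pi * t) • L (B i)) with hP
  set W : ℝ → ι → WithLp 2 (E × F) := fun t i =>
    WithLp.toLp 2 ((-(Real.pi * Real.sin (Real.pi * t))) • B i,
      (Real.pi * Real.cos (Real.pi * t)) • L (B i)) with hW
  have hP0 : P 0 = fun i => WithLp.toLp 2 (q i, (0 : F)) := by
    funext i
    simp only [hP, hA, hB]
    congr 1
    ext1
    · simp only [mul_zero, Real.cos_zero, one_smul]
      rw [← smul_add]
      have : q i + p i + (q i - p i) = (2 : ℝ) • q i := by rw [two_smul]; abel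
      rw [this, smul_smul]; norm_num
    · simp
  have hP1 : P 1 = fun i => WithLp.toLp 2 (p i, (0 : F)) := by
    funext i
    simp only [hP, hA, hB]
    congr 1
    ext1
    · simp only [mul_one, Real.cos_pi, neg_smul, one_smul]
      rw [← sub_eq_add_neg, ← smul_sub]
      have : q i + p i - (q i - p i) = (2 : ℝ) • p i := by rw [two_smul]; abel
      rw [this, smul_smul]; norm_num
    · simp
  have hcos : ∀ t : ℝ, HasDerivAt (fun t => Real.cos (Real.pi * t))
      (-(Real.pi * Real.sin (Real.pi * t))) t := by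
    intro t
    have h1 : HasDerivAt (fun t : ℝ => Real.pi * t) Real.pi t := by
      simpa using (hasDerivAt_id t).const_mul Real.pi
    have h2 := h1.cos
    refine h2.congr_deriv ?_
    ring
  have hsin : ∀ t : ℝ, HasDerivAt (fun t => Real.sin (Real.pi * t))
      (Real.pi * Real.cos (Real.pi * t)) t := by
    intro t
    have h1 : HasDerivAt (fun t : ℝ => Real.pi * t) Real.pi t := by
      simpa using (hasDerivAt_id t).const_mul Real.pi
    have h2 := h1.sin
    refine h2.congr_deriv ?_
    ring
  have hderiv : ∀ t i, HasDerivAt (fun s => P s i) (W t i) t := by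
    intro t i
    have h1 : HasDerivAt (fun s => A i + Real.cos (Real.pi * s) • B i)
        ((-(Real.pi * Real.sin (Real.pi * t))) • B i) t :=
      ((hcos t).smul_const (B i)).const_add (A i)
    have h2 : HasDerivAt (fun s => Real.sin (Real.pi * s) • L (B i))
        ((Real.pi * Real.cos (Real.pi * t)) • L (B i)) t :=
      (hsin t).smul_const (L (B i))
    have h3 := h1.prodMk h2
    exact ((WithLp.prodContinuousLinearEquiv 2 ℝ E F).symm.toContinuousLinearMap.hasFDerivAt.comp_hasDerivAt
      t h3)
  have hPc : Continuous P := by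
    refine continuous_pi fun i => ?_
    exact continuous_iff_continuousAt.mpr fun t => (hderiv t i).continuousAt
  have hWc : Continuous W := by
    refine continuous_pi fun i => ?_
    simp only [hW]
    have h1 : Continuous fun t : ℝ => ((-(Real.pi * Real.sin (Real.pi * t))) • B i,
      (Real.pi * Real.cos (Real.pi * t)) • L (B i)) := by fun_prop
    exact (WithLp.prodContinuousLinearEquiv 2 ℝ E F).symm.continuous.comp h1
  rw [← hP0, ← hP1]
  refine D.J_mono hPc.continuousOn (fun t _ i => hderiv t i) hWc.continuousOn ?_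
  intro t ht i j
  have hsinnn : 0 ≤ Real.sin (Real.pi * t) := by
    apply Real.sin_nonneg_of_nonneg_of_le_pi
    · have := Real.pi_pos; have := ht.1; positivity
    · have := Real.pi_pos
      nlinarith [ht.2]
  have hBij : B i - B j = (2 : ℝ)⁻¹ • ((q i - p i) - (q j - p j)) := by
    simp only [hB]; rw [← smul_sub]
  have hAij : A i - A j = (2 : ℝ)⁻¹ • ((q i - q j) + (p i - p j)) := by
    simp only [hA]; rw [← smul_sub]; congr 1; abel
  have hBij' : B i - B j = (2 : ℝ)⁻¹ • ((q i - q j) - (p i - p j)) := by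
    rw [hBij]; congr 1; abel
  have hLB : ‖L (B i) - L (B j)‖ = ‖B i - B j‖ := by
    rw [← map_sub, hBij, map_smul, norm_smul, norm_smul, hL i j]
  have hAB : ⟪A i - A j, B i - B j⟫_ℝ ≤ 0 := by
    rw [hAij, hBij', real_inner_smul_left, real_inner_smul_right, inner_add_sub_eq]
    have h1 := h i j
    rw [dist_eq_norm, dist_eq_norm] at h1
    have h2 : ‖q i - q j‖ * ‖q i - q j‖ ≤ ‖p i - p j‖ * ‖p i - p j‖ :=
      mul_self_le_mul_self (norm_nonneg _) h1
    nlinarith
  have e1 : P t i - P t j = WithLp.toLp 2 ((A i - A j) + Real.cos (Real.pi * t) • (B i - B j),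
      Real.sin (Real.pi * t) • (L (B i) - L (B j))) := by
    simp only [hP, ← WithLp.toLp_sub]
    congr 1
    ext1
    · simp only [Prod.mk_sub_mk, smul_sub]; abel
    · simp only [Prod.mk_sub_mk, smul_sub]
  have e2 : W t i - W t j = WithLp.toLp 2 ((-(Real.pi * Real.sin (Real.pi * t))) • (B i - B j),
      (Real.pi * Real.cos (Real.pi * t)) • (L (B i) - L (B j))) := by
    simp only [hW, ← WithLp.toLp_sub]
    congr 1
    ext1
    · simp only [Prod.mk_sub_mk, smul_sub]
    · simp only [Prod.mk_sub_mk, smul_sub]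
  rw [e1, e2, WithLp.prod_inner_apply]
  simp only [inner_add_left, real_inner_smul_left, real_inner_smul_right, real_inner_self_eq_norm_sq]
  rw [hLB]
  have := Real.pi_pos
  have h5 : 0 ≤ Real.pi * Real.sin (Real.pi * t) * (-⟪A i - A j, B i - B j⟫_ℝ) := by
    have : 0 ≤ -⟪A i - A j, B i - B j⟫_ℝ := by linarith
    positivity
  nlinarith [h5]

end trig

end Pool.Agent.Kneser
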