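import Pool.Agent.Kneser.Weighted
import Pool.Agent.Kneser.Paths
import Pool.Agent.Kneser.Gram

/-!
# Kneser's weighted inequality: the cases `d ≤ 2`, `n ≤ d + 3`, planar displacements and
expanding paths in dimension `d + 2`
-/

set_option autoImplicit false
set_option linter.unusedSectionVars false

namespace Pool.Agent.Kneser

open MeasureTheory Set Filter Topology Module
open scoped InnerProductSpace

theorem exists_map {E : Type*} [NormedAddCommGroup E] [InnerProductSpace ℝ E]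
    [FiniteDimensional ℝ E] (U : Submodule ℝ E) (hU : finrank ℝ U ≤ 2) :
    ∃ L : E →ₗ[ℝ] Pl, ∀ v ∈ U, ‖L v‖ = ‖v‖ := by
  set u := stdOrthonormalBasis ℝ U with hu
  set e : Fin (finrank ℝ U) → Pl := fun a => EuclideanSpace.basisFun (Fin 2) ℝ (Fin.castLE hU a)
    with he
  have heo : Orthonormal ℝ e :=
    (EuclideanSpace.basisFun (Fin 2) ℝ).orthonormal.comp _ (Fin.castLE_injective hU)
  let L : E →ₗ[ℝ] Pl := ∑ a, (LinearMap.toSpanSingleton ℝ Pl (e a)) ∘ₗ (innerₗ E (u a : E))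
  have hL : ∀ v, L v = ∑ a, ⟪(u a : E), v⟫_ℝ • e a := by
    intro v
    simp only [L, LinearMap.sum_apply, LinearMap.comp_apply, LinearMap.toSpanSingleton_apply,
      innerₗ_apply_apply]
  refine ⟨L, fun v hv => ?_⟩
  rw [← sq_eq_sq₀ (norm_nonneg _) (norm_nonneg _), hL, ← real_inner_self_eq_norm_sq,
    heo.inner_sum]
  have h1 : ‖v‖ ^ 2 = ‖(⟨v, hv⟩ : U)‖ ^ 2 := rfl
  rw [h1, ← real_inner_self_eq_norm_sq, ← u.sum_inner_mul_inner ⟨v, hv⟩ ⟨v, hv⟩]
  refine Finset.sum_congr rfl fun a _ => ?_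
  rw [Submodule.coe_inner, Submodule.coe_inner, real_inner_comm (u a : E) v]
  simp

variable {E : Type*} [NormedAddCommGroup E] [InnerProductSpace ℝ E] [FiniteDimensional ℝ E]
  [MeasurableSpace E] [BorelSpace E]
variable {n : ℕ}

/-- Planar displacements. -/
theorem weighted_of_planar (p q : Fin n → E) (ρ τ : Fin n → ℝ)
    (h : ∀ i j, dist (q i) (q j) ≤ dist (p i) (p j)) (hρ : ∀ i, 0 ≤ ρ i) (hτ : Antitone τ)
    (U : Submodule ℝ E) (hU : finrank ℝ U ≤ 2) (hd : ∀ i j, (q i - p i) - (q j - p j) ∈ U) :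
    ∑ k : Fin n, τ k * (volume {x : E | k.val + 1 ≤ num q ρ x}).toReal ≤
      ∑ k : Fin n, τ k * (volume {x : E | k.val + 1 ≤ num p ρ x}).toReal := by
  obtain ⟨L, hL⟩ := exists_map U hU
  exact weighted_of_J p q ρ hρ τ hτ fun D =>
    D.J_le_trig p q L (fun i j => hL _ (hd i j)) h

theorem dist_lift (a b : E) :
    dist (WithLp.toLp 2 (a, (0 : Pl))) (WithLp.toLp 2 (b, (0 : Pl))) = dist a b := by
  rw [dist_eq_norm, dist_eq_norm, ← WithLp.toLp_sub, ← sq_eq_sq₀ (norm_nonneg _) (norm_nonneg _),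
    WithLp.prod_norm_sq_eq_of_L2]
  simp

/-- Few points. -/
theorem weighted_of_card (p q : Fin n → E) (ρ τ : Fin n → ℝ)
    (h : ∀ i j, dist (q i) (q j) ≤ dist (p i) (p j)) (hρ : ∀ i, 0 ≤ ρ i) (hτ : Antitone τ)
    (hn : n ≤ finrank ℝ E + 3) :
    ∑ k : Fin n, τ k * (volume {x : E | k.val + 1 ≤ num q ρ x}).toReal ≤
      ∑ k : Fin n, τ k * (volume {x : E | k.val + 1 ≤ num p ρ x}).toReal := by
  refine weighted_of_J p q ρ hρ τ hτ fun D => D.J_le_of_card ?_ _ _ ?_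
  · have h1 : finrank ℝ (WithLp 2 (E × Pl)) = finrank ℝ E + 2 := by
      rw [(WithLp.linearEquiv 2 ℝ (E × Pl)).finrank_eq, finrank_prod]
      simp
    omega
  · intro i j
    rw [dist_lift, dist_lift]
    exact h i j

/-- Expanding paths in dimension `d + 2`. -/
theorem weighted_of_path (p q : Fin n → E) (ρ τ : Fin n → ℝ)
    (hρ : ∀ i, 0 ≤ ρ i) (hτ : Antitone τ) {P W : ℝ → Fin n → WithLp 2 (E × Pl)}
    (hP0 : ∀ i, P 0 i = WithLp.toLp 2 (q i, 0)) (hP1 : ∀ i, P 1 i = WithLp.toLp 2 (p i, 0))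
    (hPc : ∀ i, ContinuousOn (fun t => P t i) (Icc 0 1))
    (hd : ∀ t ∈ Ioo (0 : ℝ) 1, ∀ i, HasDerivAt (fun s => P s i) (W t i) t)
    (hW : ∀ i, ContinuousOn (fun t => W t i) (Ioo 0 1))
    (hdist : ∀ i j, MonotoneOn (fun t => dist (P t i) (P t j)) (Icc 0 1)) :
    ∑ k : Fin n, τ k * (volume {x : E | k.val + 1 ≤ num q ρ x}).toReal ≤
      ∑ k : Fin n, τ k * (volume {x : E | k.val + 1 ≤ num p ρ x}).toReal := by
  refine weighted_of_J p q ρ hρ τ hτ fun D => ?_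
  have h := D.J_mono_of_dist hPc hd hW hdist
  rwa [funext hP0, funext hP1] at h

end Pool.Agent.Kneser
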