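import Pool.Agent.Kneser.Concrete

/-!
# From truncated counting functions to weighted multiplicities
-/

set_option autoImplicit false
set_option linter.unusedSectionVars false

namespace Pool.Agent.Kneser

open MeasureTheory Set Filter Topology

section

variable {E : Type*} [NormedAddCommGroup E] [InnerProductSpace ℝ E] [FiniteDimensional ℝ E]
  [MeasurableSpace E] [BorelSpace E]
variable {n : ℕ}

/-- Number of balls `B(p i, ρ i)` containing `x`. -/
noncomputable def num (p : Fin n → E) (ρ : Fin n → ℝ) (x : E) : ℕ :=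
  (Finset.univ.filter (fun i => dist x (p i) ≤ ρ i)).card

theorem num_le (p : Fin n → E) (ρ : Fin n → ℝ) (x : E) : num p ρ x ≤ n := by
  unfold num
  exact (Finset.card_filter_le _ _).trans (by simp)

theorem measurable_num (p : Fin n → E) (ρ : Fin n → ℝ) : Measurable (num p ρ) := by
  have : num p ρ = fun x => ∑ i, if dist x (p i) ≤ ρ i then 1 else 0 := by
    funext x
    unfold num
    rw [Finset.card_filter]
  rw [this]
  refine Finset.measurable_sum _ fun i _ => ?_
  refine Measurable.ite ?_ measurable_const measurable_const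
  exact measurableSet_le (by fun_prop) measurable_const

theorem cnt_eq (p : Fin n → E) (ρ : Fin n → ℝ) (hρ : ∀ i, 0 ≤ ρ i) (x : E) :
    cnt (fun i => ρ i ^ 2) p x = (num p ρ x : ℝ) := by
  unfold cnt num
  rw [Finset.card_filter]
  push_cast
  refine Finset.sum_congr rfl fun i _ => ?_
  rw [dist_eq_norm]
  have : ‖x - p i‖ ^ 2 ≤ ρ i ^ 2 ↔ ‖x - p i‖ ≤ ρ i :=
    sq_le_sq₀ (norm_nonneg _) (hρ i)
  simp only [this]

/-- Volume of the set of points covered at least `k + 1` times. -/
noncomputable def lev (p : Fin n → E) (ρ : Fin n → ℝ) (k : ℕ) : ℝ :=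
  (volume {x : E | k + 1 ≤ num p ρ x}).toReal

theorem finite_lev (p : Fin n → E) (ρ : Fin n → ℝ) (k : ℕ) :
    volume {x : E | k + 1 ≤ num p ρ x} < ⊤ := by
  have hsub : {x : E | k + 1 ≤ num p ρ x} ⊆ ⋃ i, Metric.closedBall (p i) (ρ i) := by
    intro x hx
    have h1 : 0 < num p ρ x := lt_of_lt_of_le (Nat.succ_pos k) hx
    obtain ⟨i, hi⟩ := Finset.card_pos.mp h1
    rw [Finset.mem_filter] at hi
    exact mem_iUnion.mpr ⟨i, hi.2⟩
  refine (measure_mono hsub).trans_lt ?_
  refine (measure_iUnion_le _).trans_lt ?_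
  rw [tsum_fintype]
  exact ENNReal.sum_lt_top.mpr fun i _ => (isCompact_closedBall (p i) (ρ i)).measure_lt_top

theorem measurableSet_lev (p : Fin n → E) (ρ : Fin n → ℝ) (k : ℕ) :
    MeasurableSet {x : E | k + 1 ≤ num p ρ x} :=
  measurable_num p ρ (measurableSet_Ici (a := k + 1))

theorem min_eq_sum (a m : ℕ) : ((min a m : ℕ) : ℝ) =
    ∑ k ∈ Finset.range m, if k + 1 ≤ a then (1 : ℝ) else 0 := by
  rw [Finset.sum_ite, Finset.sum_const_zero, add_zero, Finset.sum_const, nsmul_eq_mul, mul_one]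
  congr 1
  have : (Finset.range m).filter (fun k => k + 1 ≤ a) = Finset.range (min a m) := by
    ext k
    simp only [Finset.mem_filter, Finset.mem_range]
    omega
  rw [this, Finset.card_range]

theorem trunc_eq (a m : ℕ) : (a : ℝ) - |(a : ℝ) - m| + |(m : ℝ)| = 2 * ((min a m : ℕ) : ℝ) := by
  rw [abs_of_nonneg (Nat.cast_nonneg m : (0 : ℝ) ≤ m)]
  rcases le_total a m with h | h
  · have h' : (a : ℝ) ≤ m := by exact_mod_cast h
    rw [abs_of_nonpos (by linarith), min_eq_left h]; ring
  · have h' : (m : ℝ) ≤ a := by exact_mod_cast h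
    rw [abs_of_nonneg (by linarith), min_eq_right h]; ring

theorem integral_trunc (p : Fin n → E) (ρ : Fin n → ℝ) (hρ : ∀ i, 0 ≤ ρ i) (m : ℕ) :
    ∫ x, (cnt (fun i => ρ i ^ 2) p x - |cnt (fun i => ρ i ^ 2) p x - m| + |(m : ℝ)|) =
      2 * ∑ k ∈ Finset.range m, lev p ρ k := by
  have h1 : ∀ x, cnt (fun i => ρ i ^ 2) p x - |cnt (fun i => ρ i ^ 2) p x - m| + |(m : ℝ)| =
      2 * ∑ k ∈ Finset.range m, {x : E | k + 1 ≤ num p ρ x}.indicator (fun _ => (1 : ℝ)) x := by
    intro x
    rw [cnt_eq p ρ hρ, trunc_eq, min_eq_sum]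
    simp only [indicator_apply, mem_ofPred_eq]
  simp only [h1]
  rw [integral_const_mul, integral_finsetSum]
  · congr 1
    refine Finset.sum_congr rfl fun k _ => ?_
    rw [integral_indicator (measurableSet_lev p ρ k)]
    simp [lev, Measure.real]
  · intro k _
    rw [integrable_indicator_iff (measurableSet_lev p ρ k)]
    exact integrableOn_const (finite_lev p ρ k).ne

theorem sum_lev (p : Fin n → E) (ρ : Fin n → ℝ) (hρ : ∀ i, 0 ≤ ρ i) :
    ∑ k ∈ Finset.range n, lev p ρ k = ∑ i, (volume (Metric.closedBall (0 : E) (ρ i))).toReal := by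
  have h := integral_trunc p ρ hρ n
  have h1 : ∀ x, cnt (fun i => ρ i ^ 2) p x - |cnt (fun i => ρ i ^ 2) p x - n| + |(n : ℝ)| =
      2 * ∑ i, (Metric.closedBall (p i) (ρ i)).indicator (fun _ => (1 : ℝ)) x := by
    intro x
    rw [cnt_eq p ρ hρ, trunc_eq, min_eq_left (num_le p ρ x), num, Finset.card_filter]
    push_cast
    congr 1
  simp only [h1] at h
  rw [integral_const_mul, integral_finsetSum] at h
  · have h2 : ∀ i, ∫ x, (Metric.closedBall (p i) (ρ i)).indicator (fun _ => (1 : ℝ)) x =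
        (volume (Metric.closedBall (0 : E) (ρ i))).toReal := by
      intro i
      rw [integral_indicator Metric.isClosed_closedBall.measurableSet]
      simp [Measure.real, Measure.addHaar_closedBall_center]
    simp only [h2] at h
    linarith
  · intro i _
    rw [integrable_indicator_iff Metric.isClosed_closedBall.measurableSet]
    exact integrableOn_const (isCompact_closedBall (p i) (ρ i)).measure_lt_top.ne

/-- Abel summation. -/
theorem abel_sum (τ A B : ℕ → ℝ) (n : ℕ) (hτ : ∀ k, k + 1 < n → τ (k + 1) ≤ τ k)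
    (h : ∀ m, ∑ k ∈ Finset.range m, B k ≤ ∑ k ∈ Finset.range m, A k)
    (hn : ∑ k ∈ Finset.range n, B k = ∑ k ∈ Finset.range n, A k) :
    ∑ k ∈ Finset.range n, τ k * B k ≤ ∑ k ∈ Finset.range n, τ k * A k := by
  rcases Nat.eq_zero_or_pos n with rfl | hpos
  · simp
  have key : ∀ m, m + 1 ≤ n → τ m * (∑ k ∈ Finset.range (m + 1), (A k - B k)) ≤
      ∑ k ∈ Finset.range (m + 1), τ k * (A k - B k) := by
    intro m
    induction m with
    | zero => intro _; simp
    | succ m ih =>
      intro hm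
      have h1 := ih (by omega)
      rw [Finset.sum_range_succ (fun k => τ k * (A k - B k)), Finset.sum_range_succ]
      have h2 := h (m + 1)
      have h3 : 0 ≤ ∑ k ∈ Finset.range (m + 1), (A k - B k) := by
        rw [Finset.sum_sub_distrib]; linarith
      have h4 := hτ m (by omega)
      nlinarith
  have h5 := key (n - 1) (by omega)
  rw [Nat.sub_add_cancel hpos, Finset.sum_sub_distrib, hn, sub_self, mul_zero] at h5
  have h6 : ∑ k ∈ Finset.range n, τ k * (A k - B k) =
      ∑ k ∈ Finset.range n, τ k * A k - ∑ k ∈ Finset.range n, τ k * B k := by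
    rw [← Finset.sum_sub_distrib]
    exact Finset.sum_congr rfl fun k _ => by ring
  linarith

/-- The weighted inequality follows from monotonicity of `J` for all profiles. -/
theorem weighted_of_J (p q : Fin n → E) (ρ : Fin n → ℝ) (hρ : ∀ i, 0 ≤ ρ i) (τ : Fin n → ℝ)
    (hτ : Antitone τ)
    (H : ∀ D : Profile (Fin n), D.J (fun i => WithLp.toLp 2 (q i, (0 : Pl))) ≤
      D.J (fun i => WithLp.toLp 2 (p i, (0 : Pl)))) :
    ∑ k : Fin n, τ k * (volume {x : E | k.val + 1 ≤ num q ρ x}).toReal ≤
      ∑ k : Fin n, τ k * (volume {x : E | k.val + 1 ≤ num p ρ x}).toReal := by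
  have h1 : ∀ m : ℕ, ∑ k ∈ Finset.range m, lev q ρ k ≤ ∑ k ∈ Finset.range m, lev p ρ k := by
    intro m
    have := truncated_le (fun i => ρ i ^ 2) (fun i => by positivity) p q m H
    rw [integral_trunc q ρ hρ, integral_trunc p ρ hρ] at this
    linarith
  have h2 : ∑ k ∈ Finset.range n, lev q ρ k = ∑ k ∈ Finset.range n, lev p ρ k := by
    rw [sum_lev q ρ hρ, sum_lev p ρ hρ]
  have h3 := abel_sum (fun k => if h : k < n then τ ⟨k, h⟩ else 0) (lev p ρ) (lev q ρ) n
    (fun k hk => by
      have hk' : k < n := by omega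
      simp only [hk, hk', dif_pos]
      exact hτ (by simp [Fin.le_def])) h1 h2
  rw [Finset.sum_range, Finset.sum_range] at h3
  simpa [lev] using h3

end

end Pool.Agent.Kneser
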